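import Mathlib

/-!
# An edge-isoperimetric inequality for the divisibility graph

For a finite set `U` of positive integers with `#U ≤ 2 ^ k` and a fixed `e ≥ 1`, the number of pairs
`(m, p ^ e * m)` in `U × U`, `p` prime, is at most `k * #U`; there is also a weighted version.
-/

set_option autoImplicit false

namespace Pool.Agent.N761.K2

open Finset

open Classical in
/-- the pairs `(m, m')` in `U × U` with `m' = p ^ e * m` for a prime `p` -/
noncomputable def edges (e : ℕ) (U : Finset ℕ) : Finset (ℕ × ℕ) :=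
  (U ×ˢ U).filter (fun x => ∃ p : ℕ, p.Prime ∧ x.2 = p ^ e * x.1)

lemma mem_edges {e : ℕ} {U : Finset ℕ} {x : ℕ × ℕ} :
    x ∈ edges e U ↔ x.1 ∈ U ∧ x.2 ∈ U ∧ ∃ p : ℕ, p.Prime ∧ x.2 = p ^ e * x.1 := by
  classical
  unfold edges
  rw [mem_filter, mem_product, and_assoc]

lemma edges_ne {e : ℕ} (he : 1 ≤ e) {U : Finset ℕ} (hU : ∀ m ∈ U, 0 < m) {x : ℕ × ℕ}
    (hx : x ∈ edges e U) : x.1 ≠ x.2 := by
  obtain ⟨h1, h2, p, hp, h3⟩ := mem_edges.1 hx
  intro h
  rw [← h] at h3
  have h4 : 1 < p ^ e := Nat.one_lt_pow (by omega) hp.one_lt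
  have h5 := hU _ h1
  nlinarith

lemma card_edges_le {e : ℕ} (he : 1 ≤ e) : ∀ (n : ℕ) (U : Finset ℕ) (k : ℕ), U.card = n →
    (∀ m ∈ U, 0 < m) → U.card ≤ 2 ^ k → (edges e U).card ≤ k * U.card := by
  classical
  intro n
  induction n using Nat.strong_induction_on with
  | _ n ih =>
  intro U k hn hU hk
  by_cases h1 : U.card ≤ 1
  · have : edges e U = ∅ := by
      rw [Finset.eq_empty_iff_forall_notMem]
      intro x hx
      obtain ⟨h2, h3, _⟩ := mem_edges.1 hx
      exact edges_ne he hU hx (Finset.card_le_one.1 h1 _ h2 _ h3)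
    rw [this]
    simp
  push Not at h1
  obtain ⟨m, hm, m', hm', hne⟩ := Finset.one_lt_card.1 h1
  obtain ⟨p, hp⟩ : ∃ p, m.factorization p ≠ m'.factorization p := by
    by_contra hcon
    push Not at hcon
    exact hne (Nat.eq_of_factorization_eq (hU m hm).ne' (hU m' hm').ne' hcon)
  set c := min (m.factorization p) (m'.factorization p) with hc
  set U0 := U.filter (fun x => x.factorization p ≤ c) with hU0
  set U1 := U.filter (fun x => ¬ x.factorization p ≤ c) with hU1
  have hsum : U0.card + U1.card = U.card := by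
    rw [hU0, hU1]
    exact Finset.card_filter_add_card_filter_not _
  have hne0 : 0 < U0.card := by
    rw [Finset.card_pos]
    rcases le_total (m.factorization p) (m'.factorization p) with h | h
    · exact ⟨m, by rw [hU0, mem_filter]; exact ⟨hm, by omega⟩⟩
    · exact ⟨m', by rw [hU0, mem_filter]; exact ⟨hm', by omega⟩⟩
  have hne1 : 0 < U1.card := by
    rw [Finset.card_pos]
    rcases le_total (m.factorization p) (m'.factorization p) with h | h
    · exact ⟨m', by rw [hU1, mem_filter]; exact ⟨hm', by omega⟩⟩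
    · exact ⟨m, by rw [hU1, mem_filter]; exact ⟨hm, by omega⟩⟩
  set cr := (U0 ×ˢ U1).filter (fun x => x.2 = p ^ e * x.1) with hcr
  have hsub : edges e U ⊆ (edges e U0 ∪ edges e U1) ∪ cr := by
    intro x hx
    obtain ⟨h2, h3, l, hl, h4⟩ := mem_edges.1 hx
    have hx1 := hU _ h2
    have hle : x.1.factorization p ≤ x.2.factorization p := by
      rw [h4, Nat.factorization_mul (pow_ne_zero _ hl.ne_zero) hx1.ne']
      simp
    by_cases ha : x.1.factorization p ≤ c
    · by_cases hb : x.2.factorization p ≤ c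
      · refine mem_union_left _ (mem_union_left _ (mem_edges.2 ⟨?_, ?_, l, hl, h4⟩))
        · rw [hU0, mem_filter]; exact ⟨h2, ha⟩
        · rw [hU0, mem_filter]; exact ⟨h3, hb⟩
      · refine mem_union_right _ ?_
        have hlp : l = p := by
          by_contra hlp
          apply hb
          rw [h4, Nat.factorization_mul (pow_ne_zero _ hl.ne_zero) hx1.ne', Nat.factorization_pow,
            hl.factorization]
          simp only [Finsupp.coe_add, Finsupp.coe_smul, Pi.add_apply, Pi.smul_apply, smul_eq_mul,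
            Finsupp.single_apply, if_neg hlp, mul_zero, zero_add]
          exact ha
        rw [hcr, mem_filter, mem_product, hU0, hU1, mem_filter, mem_filter]
        refine ⟨⟨⟨h2, ha⟩, h3, hb⟩, ?_⟩
        rw [h4, hlp]
    · have hb : ¬ x.2.factorization p ≤ c := by omega
      refine mem_union_left _ (mem_union_right _ (mem_edges.2 ⟨?_, ?_, l, hl, h4⟩))
      · rw [hU1, mem_filter]; exact ⟨h2, ha⟩
      · rw [hU1, mem_filter]; exact ⟨h3, hb⟩
  have hp0 : 0 < p := by
    rcases Nat.eq_zero_or_pos p with h | h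
    · subst h
      simp at hp
    · exact h
  have hcr0 : cr.card ≤ U0.card := by
    apply Finset.card_le_card_of_injOn (fun x => x.1)
    · intro x hx
      rw [mem_coe, hcr, mem_filter, mem_product] at hx
      exact hx.1.1
    · intro x hx y hy hxy
      rw [mem_coe, hcr, mem_filter] at hx hy
      simp only at hxy
      ext
      · exact hxy
      · rw [hx.2, hy.2, hxy]
  have hcr1 : cr.card ≤ U1.card := by
    apply Finset.card_le_card_of_injOn (fun x => x.2)
    · intro x hx
      rw [mem_coe, hcr, mem_filter, mem_product] at hx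
      exact hx.1.2
    · intro x hx y hy hxy
      rw [mem_coe, hcr, mem_filter] at hx hy
      simp only at hxy
      ext
      · have h5 : p ^ e * x.1 = p ^ e * y.1 := by rw [← hx.2, ← hy.2, hxy]
        exact Nat.eq_of_mul_eq_mul_left (pow_pos hp0 e) h5
      · exact hxy
  have hcard : (edges e U).card ≤ (edges e U0).card + (edges e U1).card + cr.card :=
    (Finset.card_le_card hsub).trans ((Finset.card_union_le _ _).trans
      (Nat.add_le_add_right (Finset.card_union_le _ _) _))
  have hU0' : ∀ x ∈ U0, 0 < x := fun x hx => hU x (Finset.mem_of_mem_filter x hx)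
  have hU1' : ∀ x ∈ U1, 0 < x := fun x hx => hU x (Finset.mem_of_mem_filter x hx)
  obtain ⟨k, rfl⟩ : ∃ k', k = k' + 1 := by
    rcases k with _ | k
    · simp at hk; omega
    · exact ⟨k, rfl⟩
  rw [pow_succ] at hk
  rcases le_total U0.card U1.card with h | h
  · have i0 := ih U0.card (by omega) U0 k rfl hU0' (by omega)
    have i1 := ih U1.card (by omega) U1 (k + 1) rfl hU1' (by rw [pow_succ]; omega)
    rw [← hsum]
    nlinarith
  · have i0 := ih U0.card (by omega) U0 (k + 1) rfl hU0' (by rw [pow_succ]; omega)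
    have i1 := ih U1.card (by omega) U1 k rfl hU1' (by omega)
    rw [← hsum]
    nlinarith

/-- weighted version -/
lemma sum_edges_le {e : ℕ} (he : 1 ≤ e) : ∀ (n : ℕ) (U : Finset ℕ) (k : ℕ) (w : ℕ → ℝ),
    U.card = n → (∀ m ∈ U, 0 < m) → (∀ m ∈ U, 0 ≤ w m) → U.card ≤ 2 ^ k →
    ∑ x ∈ edges e U, min (w x.1) (w x.2) ≤ k * ∑ m ∈ U, w m := by
  classical
  intro n
  induction n with
  | zero =>
    intro U k w hn _ _ _
    rw [Finset.card_eq_zero] at hn
    subst hn
    simp [edges]
  | succ n ih =>
    intro U k w hn hU hw hk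
    have hne : U.Nonempty := by
      rw [← Finset.card_pos]; omega
    obtain ⟨m₀, hm₀, hmin⟩ := Finset.exists_min_image U w hne
    set μ := w m₀ with hμ
    set w' : ℕ → ℝ := fun m => w m - μ with hw'
    have h1 : ∑ x ∈ edges e U, min (w x.1) (w x.2) =
        μ * (edges e U).card + ∑ x ∈ edges e U, min (w' x.1) (w' x.2) := by
      rw [mul_comm, ← nsmul_eq_mul, ← Finset.sum_const, ← Finset.sum_add_distrib]
      apply Finset.sum_congr rfl
      intro x _
      simp only [hw']
      rw [min_sub_sub_right]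
      ring
    have h2 : ∑ x ∈ edges e U, min (w' x.1) (w' x.2) =
        ∑ x ∈ edges e (U.erase m₀), min (w' x.1) (w' x.2) := by
      symm
      apply Finset.sum_subset
      · intro x hx
        obtain ⟨h3, h4, h5⟩ := mem_edges.1 hx
        exact mem_edges.2 ⟨Finset.mem_of_mem_erase h3, Finset.mem_of_mem_erase h4, h5⟩
      · intro x hx hx'
        obtain ⟨h3, h4, h5⟩ := mem_edges.1 hx
        have h6 : x.1 = m₀ ∨ x.2 = m₀ := by
          by_contra hcon
          push Not at hcon
          exact hx' (mem_edges.2 ⟨Finset.mem_erase.2 ⟨hcon.1, h3⟩, Finset.mem_erase.2 ⟨hcon.2, h4⟩, h5⟩)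
        have h7 : 0 ≤ w' x.1 := by simp only [hw']; linarith [hmin _ h3]
        have h8 : 0 ≤ w' x.2 := by simp only [hw']; linarith [hmin _ h4]
        have h9 : w' m₀ = 0 := by simp only [hw']; linarith
        rcases h6 with h6 | h6
        · rw [h6] at h7 ⊢
          rw [h9, min_eq_left h8]
        · rw [h6] at h8 ⊢
          rw [h9, min_eq_right h7]
    have h3 := ih (U.erase m₀) k w' (by rw [Finset.card_erase_of_mem hm₀]; omega)
      (fun m hm => hU m (Finset.mem_of_mem_erase hm))
      (fun m hm => by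
        have := hmin m (Finset.mem_of_mem_erase hm)
        simp only [hw']; linarith)
      (by rw [Finset.card_erase_of_mem hm₀]; omega)
    have h4 : ∑ m ∈ U.erase m₀, w' m = ∑ m ∈ U, w' m := by
      rw [← Finset.add_sum_erase _ _ hm₀]
      simp [hw', hμ]
    have h5 : ∑ m ∈ U, w' m = ∑ m ∈ U, w m - U.card * μ := by
      simp only [hw']
      rw [Finset.sum_sub_distrib, Finset.sum_const, nsmul_eq_mul]
    have h6 : ((edges e U).card : ℝ) ≤ k * U.card := by
      exact_mod_cast card_edges_le he _ U k rfl hU hk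
    have h7 : 0 ≤ μ := hw m₀ hm₀
    rw [h1, h2]
    rw [h4, h5] at h3
    nlinarith [mul_le_mul_of_nonneg_left h6 h7]

end Pool.Agent.N761.K2
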