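import Mathlib
import Pool.Agent.N761.K2.Edge

/-!
# Divisor sums and integers without large prime power components
-/

set_option autoImplicit false

namespace Pool.Agent.N761.K2

open Finset

lemma H_le (Y l : ℕ) (h : Y ≤ 2 ^ l) : ∑ d ∈ Icc 1 Y, (1 / (d : ℝ)) ≤ l + 1 := by
  rcases Nat.eq_zero_or_pos Y with h0 | h0
  · subst h0
    simp
    positivity
  have h1 : ∑ d ∈ Icc 1 Y, (1 / (d : ℝ)) = ((harmonic Y : ℚ) : ℝ) := by
    rw [harmonic_eq_sum_Icc]
    push_cast
    simp
  rw [h1]
  refine (harmonic_le_one_add_log Y).trans ?_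
  have h2 : Real.log Y ≤ l := by
    calc Real.log Y ≤ Real.log ((2 : ℝ) ^ l) := by
          apply Real.log_le_log (by exact_mod_cast h0)
          exact_mod_cast h
      _ = l * Real.log 2 := by rw [Real.log_pow]
      _ ≤ l * 1 := by
          apply mul_le_mul_of_nonneg_left _ (Nat.cast_nonneg l)
          have := Real.log_two_lt_d9
          linarith
      _ = l := mul_one _
  linarith

lemma sum_div_le (Y l : ℕ) (h : Y ≤ 2 ^ l) :
    ∑ m ∈ Icc 1 Y, ((Nat.divisors m).card : ℝ) ≤ Y * (l + 1) := by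
  classical
  have h1 : ∑ m ∈ Icc 1 Y, (Nat.divisors m).card = ∑ d ∈ Icc 1 Y, Y / d := by
    have h2 : ∀ m ∈ Icc 1 Y, (Nat.divisors m).card = ∑ d ∈ Icc 1 Y, if d ∣ m then 1 else 0 := by
      intro m hm
      rw [mem_Icc] at hm
      rw [Finset.card_eq_sum_ones, ← Finset.sum_filter]
      apply Finset.sum_congr _ (fun _ _ => rfl)
      ext d
      rw [Nat.mem_divisors, mem_filter, mem_Icc]
      constructor
      · rintro ⟨h3, h4⟩
        have h5 := Nat.le_of_dvd (by omega) h3
        have h6 := Nat.pos_of_dvd_of_pos h3 (by omega)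
        exact ⟨⟨by omega, by omega⟩, h3⟩
      · rintro ⟨_, h3⟩
        exact ⟨h3, by omega⟩
    rw [Finset.sum_congr rfl h2, Finset.sum_comm]
    apply Finset.sum_congr rfl
    intro d hd
    rw [mem_Icc] at hd
    rw [← Finset.sum_filter, ← Finset.card_eq_sum_ones]
    have h3 : (Icc 1 Y).filter (fun a => d ∣ a) = (Ioc 0 Y).filter (fun a => d ∣ a) := by
      ext x
      simp only [mem_filter, mem_Icc, mem_Ioc]
      constructor <;> rintro ⟨⟨h, h'⟩, h''⟩ <;> exact ⟨⟨by omega, h'⟩, h''⟩
    rw [h3, Nat.Ioc_filter_dvd_card_eq_div]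
  have h2 : ∑ m ∈ Icc 1 Y, ((Nat.divisors m).card : ℝ) = ∑ d ∈ Icc 1 Y, ((Y / d : ℕ) : ℝ) := by
    exact_mod_cast h1
  rw [h2]
  calc ∑ d ∈ Icc 1 Y, ((Y / d : ℕ) : ℝ) ≤ ∑ d ∈ Icc 1 Y, (Y : ℝ) * (1 / (d : ℝ)) := by
        apply Finset.sum_le_sum
        intro d _
        rw [mul_one_div]
        exact Nat.cast_div_le
    _ = Y * ∑ d ∈ Icc 1 Y, (1 / (d : ℝ)) := by rw [Finset.mul_sum]
    _ ≤ Y * (l + 1) := mul_le_mul_of_nonneg_left (H_le Y l h) (Nat.cast_nonneg Y)

/-- all prime power components of `m` are at most `z` -/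
def PS (z m : ℕ) : Prop := ∀ p : ℕ, p.Prime → p ^ m.factorization p ≤ z

lemma le_pow_of_PS {z m : ℕ} (hm : m ≠ 0) (h : PS z m) : m ≤ z ^ m.primeFactors.card := by
  conv_lhs => rw [← Nat.prod_factorization_pow_eq_self hm]
  rw [Finsupp.prod, Nat.support_factorization, ← Finset.prod_const]
  exact Finset.prod_le_prod' (fun p hp => h p (Nat.prime_of_mem_primeFactors hp))

lemma two_pow_le_divisors {m : ℕ} (hm : m ≠ 0) : 2 ^ m.primeFactors.card ≤ m.divisors.card := by
  rw [Nat.card_divisors hm, ← Finset.prod_const]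
  apply Finset.prod_le_prod'
  intro p hp
  have h1 : m.factorization p ≠ 0 := by
    rw [← Finsupp.mem_support_iff, Nat.support_factorization]
    exact hp
  omega

open Classical in
/-- the number of the integers without large prime power components -/
lemma card_PS_le (Y l s c : ℕ) (h : Y ≤ 2 ^ l) (hs : 1 ≤ s) :
    (((Icc 1 Y).filter (fun m => PS (2 ^ s) m)).card : ℝ) ≤ 2 ^ (s * c) + Y * (l + 1) / 2 ^ c := by
  set A := (Icc 1 Y).filter (fun m => PS (2 ^ s) m) with hA
  set B := A.filter (fun m => m ≤ 2 ^ (s * c)) with hB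
  set C := A.filter (fun m => ¬ m ≤ 2 ^ (s * c)) with hC
  have h1 : B.card + C.card = A.card := Finset.card_filter_add_card_filter_not _
  have h2 : B.card ≤ 2 ^ (s * c) := by
    have : B ⊆ Icc 1 (2 ^ (s * c)) := by
      intro m hm
      rw [hB, mem_filter, hA, mem_filter, mem_Icc] at hm
      rw [mem_Icc]
      exact ⟨hm.1.1.1, hm.2⟩
    calc B.card ≤ (Icc 1 (2 ^ (s * c))).card := Finset.card_le_card this
      _ = _ := by simp
  have h3 : (C.card : ℝ) * 2 ^ c ≤ Y * (l + 1) := by
    refine le_trans ?_ (sum_div_le Y l h)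
    calc (C.card : ℝ) * 2 ^ c = ∑ m ∈ C, (2 : ℝ) ^ c := by rw [Finset.sum_const, nsmul_eq_mul]
      _ ≤ ∑ m ∈ C, ((Nat.divisors m).card : ℝ) := by
          apply Finset.sum_le_sum
          intro m hm
          rw [hC, mem_filter, hA, mem_filter, mem_Icc] at hm
          obtain ⟨⟨⟨h4, h5⟩, h6⟩, h7⟩ := hm
          have hm0 : m ≠ 0 := by omega
          have h8 := le_pow_of_PS hm0 h6
          rw [← pow_mul] at h8
          have h9 : s * c < s * m.primeFactors.card := by
            rw [← Nat.pow_lt_pow_iff_right (by norm_num : 1 < 2)]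
            omega
          have h10 : c < m.primeFactors.card := lt_of_mul_lt_mul_left h9 (Nat.zero_le s)
          have h11 := two_pow_le_divisors hm0
          have h12 : 2 ^ c ≤ m.divisors.card :=
            (Nat.pow_le_pow_right (by norm_num) h10.le).trans h11
          exact_mod_cast h12
      _ ≤ ∑ m ∈ Icc 1 Y, ((Nat.divisors m).card : ℝ) := by
          apply Finset.sum_le_sum_of_subset_of_nonneg
          · intro m hm
            rw [hC, mem_filter, hA, mem_filter] at hm
            exact hm.1.1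
          · intro m _ _
            positivity
  have h4 : (C.card : ℝ) ≤ Y * (l + 1) / 2 ^ c := by
    rw [le_div_iff₀ (by positivity)]
    exact h3
  have h5 : (B.card : ℝ) ≤ 2 ^ (s * c) := by exact_mod_cast h2
  have h6 : (A.card : ℝ) = B.card + C.card := by exact_mod_cast h1.symm
  linarith

open Classical in
/-- pairs `(s p^e m, t m)` with fixed `s, t, e` -/
lemma sum_fixed_le {e s t k : ℕ} (he : 1 ≤ e) (hs : 1 ≤ s) (ht : 1 ≤ t) (S : Finset ℕ) (v : ℕ → ℝ)
    (hS : ∀ q ∈ S, 0 < q) (hv : ∀ q ∈ S, 0 ≤ v q) (hk : S.card ≤ 2 ^ k) :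
    ∑ x ∈ (S ×ˢ S).filter (fun x => ∃ p m : ℕ, p.Prime ∧ x.1 = s * (p ^ e * m) ∧ x.2 = t * m),
      min (v x.1) (v x.2) ≤ (k + 1) * (2 * ∑ q ∈ S, v q) := by
  set U := (S.filter (fun q => s ∣ q)).image (fun q => q / s) ∪
    (S.filter (fun q => t ∣ q)).image (fun q => q / t) with hU
  set w : ℕ → ℝ := fun m => (if s * m ∈ S then v (s * m) else 0) +
    (if t * m ∈ S then v (t * m) else 0) with hw
  have hUpos : ∀ m ∈ U, 0 < m := by
    intro m hm
    rw [hU, mem_union, mem_image, mem_image] at hm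
    rcases hm with ⟨q, hq, rfl⟩ | ⟨q, hq, rfl⟩
    · rw [mem_filter] at hq
      exact Nat.div_pos (Nat.le_of_dvd (hS q hq.1) hq.2) (by omega)
    · rw [mem_filter] at hq
      exact Nat.div_pos (Nat.le_of_dvd (hS q hq.1) hq.2) (by omega)
  have hwnn : ∀ m, 0 ≤ w m := by
    intro m
    simp only [hw]
    apply add_nonneg
    · split_ifs with h
      · exact hv _ h
      · exact le_rfl
    · split_ifs with h
      · exact hv _ h
      · exact le_rfl
  have hUcard : U.card ≤ 2 ^ (k + 1) := by
    calc U.card ≤ _ := Finset.card_union_le _ _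
      _ ≤ S.card + S.card := by
          apply Nat.add_le_add
          · exact Finset.card_image_le.trans (Finset.card_filter_le _ _)
          · exact Finset.card_image_le.trans (Finset.card_filter_le _ _)
      _ ≤ 2 ^ (k + 1) := by rw [pow_succ]; omega
  have hedge := sum_edges_le he U.card U (k + 1) w rfl hUpos (fun m _ => hwnn m) hUcard
  have hsumw : ∑ m ∈ U, w m ≤ 2 * ∑ q ∈ S, v q := by
    have aux : ∀ a : ℕ, 1 ≤ a → ∑ m ∈ U, (if a * m ∈ S then v (a * m) else 0) ≤ ∑ q ∈ S, v q := by
      intro a ha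
      rw [← Finset.sum_filter]
      rw [← Finset.sum_image (f := v) (s := U.filter (fun m => a * m ∈ S)) (g := fun m => a * m)]
      · apply Finset.sum_le_sum_of_subset_of_nonneg
        · intro q hq
          rw [mem_image] at hq
          obtain ⟨m, hm, rfl⟩ := hq
          rw [mem_filter] at hm
          exact hm.2
        · intro q hq _
          exact hv q hq
      · intro m _ m' _ hmm
        exact Nat.eq_of_mul_eq_mul_left (by omega) hmm
    simp only [hw]
    rw [Finset.sum_add_distrib]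
    linarith [aux s hs, aux t ht]
  calc ∑ x ∈ (S ×ˢ S).filter (fun x => ∃ p m : ℕ, p.Prime ∧ x.1 = s * (p ^ e * m) ∧ x.2 = t * m),
        min (v x.1) (v x.2)
      ≤ ∑ x ∈ (S ×ˢ S).filter (fun x => ∃ p m : ℕ, p.Prime ∧ x.1 = s * (p ^ e * m) ∧ x.2 = t * m),
        min (w (x.2 / t)) (w (x.1 / s)) := by
        apply Finset.sum_le_sum
        intro x hx
        rw [mem_filter, mem_product] at hx
        obtain ⟨⟨h1, h2⟩, p, m, hp, h3, h4⟩ := hx
        have e1 : x.1 / s = p ^ e * m := by rw [h3, Nat.mul_div_cancel_left _ (by omega)]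
        have e2 : x.2 / t = m := by rw [h4, Nat.mul_div_cancel_left _ (by omega)]
        have i1 : v x.1 ≤ w (x.1 / s) := by
          rw [e1]
          simp only [hw]
          rw [if_pos (by rw [← h3]; exact h1), ← h3]
          have : 0 ≤ (if t * (p ^ e * m) ∈ S then v (t * (p ^ e * m)) else 0) := by
            split_ifs with h
            · exact hv _ h
            · exact le_rfl
          linarith
        have i2 : v x.2 ≤ w (x.2 / t) := by
          rw [e2]
          simp only [hw]
          rw [if_pos (show t * m ∈ S by rw [← h4]; exact h2), ← h4]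
          have : 0 ≤ (if s * m ∈ S then v (s * m) else 0) := by
            split_ifs with h
            · exact hv _ h
            · exact le_rfl
          linarith
        rw [min_comm]
        exact min_le_min i2 i1
    _ = ∑ y ∈ ((S ×ˢ S).filter (fun x => ∃ p m : ℕ, p.Prime ∧ x.1 = s * (p ^ e * m) ∧
          x.2 = t * m)).image (fun x => (x.2 / t, x.1 / s)), min (w y.1) (w y.2) := by
        rw [Finset.sum_image]
        intro x hx x' hx' hxx
        rw [mem_coe, mem_filter, mem_product] at hx hx'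
        obtain ⟨⟨h1, h2⟩, p, m, hp, h3, h4⟩ := hx
        obtain ⟨⟨h1', h2'⟩, p', m', hp', h3', h4'⟩ := hx'
        simp only [Prod.mk.injEq] at hxx
        obtain ⟨k1, k2⟩ := hxx
        ext
        · have d1 : s ∣ x.1 := ⟨_, h3⟩
          have d2 : s ∣ x'.1 := ⟨_, h3'⟩
          rw [← Nat.div_mul_cancel d1, k2, Nat.div_mul_cancel d2]
        · have d1 : t ∣ x.2 := ⟨_, h4⟩
          have d2 : t ∣ x'.2 := ⟨_, h4'⟩
          rw [← Nat.div_mul_cancel d1, k1, Nat.div_mul_cancel d2]
    _ ≤ ∑ y ∈ edges e U, min (w y.1) (w y.2) := by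
        apply Finset.sum_le_sum_of_subset_of_nonneg
        · intro y hy
          rw [mem_image] at hy
          obtain ⟨x, hx, rfl⟩ := hy
          rw [mem_filter, mem_product] at hx
          obtain ⟨⟨h1, h2⟩, p, m, hp, h3, h4⟩ := hx
          have e1 : x.1 / s = p ^ e * m := by rw [h3, Nat.mul_div_cancel_left _ (by omega)]
          have e2 : x.2 / t = m := by rw [h4, Nat.mul_div_cancel_left _ (by omega)]
          refine mem_edges.2 ⟨?_, ?_, p, hp, ?_⟩
          · rw [hU, mem_union, mem_image, mem_image]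
            exact Or.inr ⟨x.2, mem_filter.2 ⟨h2, ⟨_, h4⟩⟩, rfl⟩
          · rw [hU, mem_union, mem_image, mem_image]
            exact Or.inl ⟨x.1, mem_filter.2 ⟨h1, ⟨_, h3⟩⟩, rfl⟩
          · simp only
            rw [e1, e2]
        · intro y _ _
          exact le_min (hwnn _) (hwnn _)
    _ ≤ ((k + 1 : ℕ) : ℝ) * ∑ m ∈ U, w m := hedge
    _ ≤ (k + 1) * (2 * ∑ q ∈ S, v q) := by
        push_cast
        exact mul_le_mul_of_nonneg_left hsumw (by positivity)

end Pool.Agent.N761.K2
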