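import Mathlib
import Pool.Agent.N761.K2.Arith

/-!
# Pairs of integers with ratio of prescribed height
-/

set_option autoImplicit false

namespace Pool.Agent.N761.K2

open Finset

/-- `q / gcd (q, r)` -/
def qa (q r : ℕ) : ℕ := q / Nat.gcd q r

lemma gcd_mul_qa (q r : ℕ) : Nat.gcd q r * qa q r = q := Nat.mul_div_cancel' (Nat.gcd_dvd_left q r)

lemma gcd_mul_qa' (q r : ℕ) : Nat.gcd q r * qa r q = r := by
  unfold qa
  rw [Nat.gcd_comm r q]
  exact Nat.mul_div_cancel' (Nat.gcd_dvd_right q r)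

lemma qa_pos {q r : ℕ} (hq : 0 < q) : 0 < qa q r := by
  rcases Nat.eq_zero_or_pos (qa q r) with h | h
  · have := gcd_mul_qa q r
    rw [h] at this
    omega
  · exact h

lemma qa_dvd (q r : ℕ) : qa q r ∣ q := ⟨Nat.gcd q r, by rw [mul_comm]; exact (gcd_mul_qa q r).symm⟩

lemma coprime_qa {q r : ℕ} (hq : 0 < q) : Nat.Coprime (qa q r) (qa r q) := by
  unfold qa
  rw [Nat.gcd_comm r q]
  exact Nat.coprime_div_gcd_div_gcd (Nat.gcd_pos_of_pos_left r hq)

lemma qa_inj {q r r' : ℕ} (hq : 0 < q) (h1 : qa q r = qa q r') (h2 : qa r q = qa r' q) : r = r' := by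
  have e1 := gcd_mul_qa q r
  have e2 := gcd_mul_qa q r'
  have e3 := gcd_mul_qa' q r
  have e4 := gcd_mul_qa' q r'
  have h3 : Nat.gcd q r = Nat.gcd q r' := by
    apply Nat.eq_of_mul_eq_mul_right (qa_pos (r := r) hq)
    rw [e1, h1, e2]
  rw [← e3, ← e4, h3, h2]

/-- summation over `r` through the pair `(qa q r, qa r q)` -/
lemma sum_qa_le {q : ℕ} (hq : 0 < q) (R A B : Finset ℕ) (F : ℕ → ℕ → ℝ)
    (hF : ∀ a ∈ A, ∀ b ∈ B, 0 ≤ F a b)
    (hR : ∀ r ∈ R, qa q r ∈ A ∧ qa r q ∈ B) :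
    ∑ r ∈ R, F (qa q r) (qa r q) ≤ ∑ a ∈ A, ∑ b ∈ B, F a b := by
  classical
  rw [← Finset.sum_product']
  rw [← Finset.sum_image (f := fun x : ℕ × ℕ => F x.1 x.2) (s := R)
    (g := fun r => (qa q r, qa r q))]
  · apply Finset.sum_le_sum_of_subset_of_nonneg
    · intro x hx
      rw [mem_image] at hx
      obtain ⟨r, hr, rfl⟩ := hx
      rw [mem_product]
      exact hR r hr
    · intro x hx _
      rw [mem_product] at hx
      exact hF _ hx.1 _ hx.2
  · intro r _ r' _ h
    simp only [Prod.mk.injEq] at h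
    exact qa_inj hq h.1 h.2

open Classical in
lemma level_le (S : Finset ℕ) (v : ℕ → ℝ) (hS : ∀ q ∈ S, 0 < q) (hv : ∀ q ∈ S, 0 ≤ v q)
    {k : ℕ} (hk : S.card ≤ 2 ^ k) (l s c : ℕ) (hs : 1 ≤ s) :
    ∑ x ∈ (S ×ˢ S).filter (fun x => qa x.1 x.2 ≤ 2 ^ l ∧ qa x.2 x.1 ≤ 2 ^ l),
      min (v x.1) (v x.2) ≤
      ((2 ^ (s * c) + 2 ^ l * (l + 1) / 2 ^ c) * 2 ^ l +
        l * (2 ^ l / 2 ^ s) * 2 ^ l * ((k + 1) * 2)) * ∑ q ∈ S, v q := by
  set P := (S ×ˢ S).filter (fun x => qa x.1 x.2 ≤ 2 ^ l ∧ qa x.2 x.1 ≤ 2 ^ l) with hP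
  have hmin0 : ∀ x ∈ S ×ˢ S, 0 ≤ min (v x.1) (v x.2) := by
    intro x hx
    rw [mem_product] at hx
    exact le_min (hv _ hx.1) (hv _ hx.2)
  have hPS : ∀ x ∈ P, x ∈ S ×ˢ S := fun x hx => Finset.mem_of_mem_filter x hx
  have hsumv : 0 ≤ ∑ q ∈ S, v q := Finset.sum_nonneg hv
  rw [← Finset.sum_filter_add_sum_filter_not P (fun x => PS (2 ^ s) (qa x.1 x.2))]
  rw [add_mul]
  apply add_le_add
  · -- integers without large prime power components
    calc ∑ x ∈ P.filter (fun x => PS (2 ^ s) (qa x.1 x.2)), min (v x.1) (v x.2)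
        ≤ ∑ x ∈ P.filter (fun x => PS (2 ^ s) (qa x.1 x.2)), v x.1 :=
          Finset.sum_le_sum (fun x _ => min_le_left _ _)
      _ = ∑ q ∈ S, ∑ r ∈ S.filter (fun r => (qa q r ≤ 2 ^ l ∧ qa r q ≤ 2 ^ l) ∧ PS (2 ^ s) (qa q r)),
            v q := by
          rw [hP, Finset.filter_filter, Finset.sum_filter, Finset.sum_product]
          apply Finset.sum_congr rfl
          intro q _
          rw [Finset.sum_filter]
      _ ≤ ∑ q ∈ S, ((2 ^ (s * c) + 2 ^ l * (l + 1) / 2 ^ c) * 2 ^ l) * v q := by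
          apply Finset.sum_le_sum
          intro q hq
          rw [Finset.sum_const, nsmul_eq_mul]
          apply mul_le_mul_of_nonneg_right _ (hv q hq)
          have h1 := sum_qa_le (hS q hq)
            (S.filter (fun r => (qa q r ≤ 2 ^ l ∧ qa r q ≤ 2 ^ l) ∧ PS (2 ^ s) (qa q r)))
            ((Icc 1 (2 ^ l)).filter (fun m => PS (2 ^ s) m)) (Icc 1 (2 ^ l)) (fun _ _ => 1)
            (fun _ _ _ _ => zero_le_one) (by
              intro r hr
              rw [mem_filter] at hr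
              obtain ⟨h1, ⟨h2, h3⟩, h4⟩ := hr
              rw [mem_filter, mem_Icc, mem_Icc]
              exact ⟨⟨⟨qa_pos (hS q hq), h2⟩, h4⟩, qa_pos (hS r h1), h3⟩)
          rw [Finset.sum_const, nsmul_eq_mul, mul_one] at h1
          refine h1.trans ?_
          simp only [Finset.sum_const, nsmul_eq_mul, mul_one, Nat.card_Icc, Nat.add_sub_cancel,
            Nat.cast_pow, Nat.cast_ofNat]
          apply mul_le_mul_of_nonneg_right _ (by positivity)
          have h2 := card_PS_le (2 ^ l) l s c le_rfl hs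
          push_cast at h2
          exact h2
      _ = _ := by rw [← Finset.mul_sum]
  · -- a large prime power component
    set T := Icc 1 l ×ˢ (Icc 1 (2 ^ l / 2 ^ s) ×ˢ Icc 1 (2 ^ l)) with hT
    set F : ℕ × ℕ × ℕ → ℕ × ℕ → Prop := fun τ x => ∃ p m : ℕ, p.Prime ∧
      x.1 = τ.2.1 * (p ^ τ.1 * m) ∧ x.2 = τ.2.2 * m with hF
    have hex : ∀ x ∈ P.filter (fun x => ¬ PS (2 ^ s) (qa x.1 x.2)), ∃ τ ∈ T, F τ x := by
      intro x hx
      rw [mem_filter, hP, mem_filter, mem_product] at hx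
      obtain ⟨⟨⟨h1, h2⟩, h3, h4⟩, h5⟩ := hx
      unfold PS at h5
      push Not at h5
      obtain ⟨p, hp, h6⟩ := h5
      have hq0 := hS _ h1
      have hr0 := hS _ h2
      have ha0 := qa_pos (r := x.2) hq0
      have hb0 := qa_pos (r := x.1) hr0
      set e := (qa x.1 x.2).factorization p with he
      obtain ⟨s', hs'⟩ : p ^ e ∣ qa x.1 x.2 := Nat.ordProj_dvd _ _
      have he1 : 1 ≤ e := by
        rcases Nat.eq_zero_or_pos e with h | h
        · rw [h, pow_zero] at h6
          have := Nat.one_le_two_pow (n := s)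
          omega
        · exact h
      have hs'0 : 0 < s' := by
        rcases Nat.eq_zero_or_pos s' with h | h
        · rw [h, mul_zero] at hs'
          omega
        · exact h
      have hpe : p ^ e ≤ 2 ^ l := by
        calc p ^ e = p ^ e * 1 := (mul_one _).symm
          _ ≤ p ^ e * s' := Nat.mul_le_mul_left _ hs'0
          _ = qa x.1 x.2 := hs'.symm
          _ ≤ 2 ^ l := h3
      have hel : e ≤ l := by
        have h7 : 2 ^ e ≤ 2 ^ l := (Nat.pow_le_pow_left hp.two_le e).trans hpe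
        exact (Nat.pow_le_pow_iff_right (by norm_num)).1 h7
      refine ⟨(e, s', qa x.2 x.1), ?_, p, Nat.gcd x.1 x.2, hp, ?_, ?_⟩
      · rw [hT, mem_product, mem_product, mem_Icc, mem_Icc, mem_Icc]
        refine ⟨⟨he1, hel⟩, ⟨hs'0, ?_⟩, hb0, h4⟩
        rw [Nat.le_div_iff_mul_le (by positivity)]
        calc s' * 2 ^ s ≤ s' * p ^ e := Nat.mul_le_mul_left _ h6.le
          _ = qa x.1 x.2 := by rw [hs', mul_comm]
          _ ≤ 2 ^ l := h3
      · simp only
        have := gcd_mul_qa x.1 x.2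
        calc x.1 = Nat.gcd x.1 x.2 * (p ^ e * s') := by rw [← hs', this]
          _ = _ := by ring
      · simp only
        have := gcd_mul_qa' x.1 x.2
        calc x.2 = Nat.gcd x.1 x.2 * qa x.2 x.1 := this.symm
          _ = _ := by ring
    calc ∑ x ∈ P.filter (fun x => ¬ PS (2 ^ s) (qa x.1 x.2)), min (v x.1) (v x.2)
        ≤ ∑ x ∈ P.filter (fun x => ¬ PS (2 ^ s) (qa x.1 x.2)), ∑ τ ∈ T,
            (if F τ x then min (v x.1) (v x.2) else 0) := by
          apply Finset.sum_le_sum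
          intro x hx
          obtain ⟨τ, hτ, hτx⟩ := hex x hx
          have hx' := hmin0 x (hPS x (Finset.mem_of_mem_filter x hx))
          calc min (v x.1) (v x.2) = (if F τ x then min (v x.1) (v x.2) else 0) := by rw [if_pos hτx]
            _ ≤ _ := by
              apply Finset.single_le_sum (f := fun τ => (if F τ x then min (v x.1) (v x.2) else 0))
                _ hτ
              intro τ' _
              split_ifs
              · exact hx'
              · exact le_rfl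
      _ = ∑ τ ∈ T, ∑ x ∈ P.filter (fun x => ¬ PS (2 ^ s) (qa x.1 x.2)),
            (if F τ x then min (v x.1) (v x.2) else 0) := Finset.sum_comm
      _ ≤ ∑ τ ∈ T, ((k + 1) * (2 * ∑ q ∈ S, v q)) := by
          apply Finset.sum_le_sum
          intro τ hτ
          rw [hT, mem_product, mem_product, mem_Icc, mem_Icc, mem_Icc] at hτ
          rw [← Finset.sum_filter]
          refine le_trans ?_ (sum_fixed_le hτ.1.1 hτ.2.1.1 hτ.2.2.1 S v hS hv hk)
          apply Finset.sum_le_sum_of_subset_of_nonneg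
          · intro x hx
            rw [mem_filter, mem_filter] at hx
            rw [mem_filter]
            exact ⟨hPS x hx.1.1, hx.2⟩
          · intro x hx _
            exact hmin0 x (Finset.mem_of_mem_filter x hx)
      _ = (T.card : ℝ) * ((k + 1) * (2 * ∑ q ∈ S, v q)) := by rw [Finset.sum_const, nsmul_eq_mul]
      _ ≤ (l * (2 ^ l / 2 ^ s) * 2 ^ l) * ((k + 1) * (2 * ∑ q ∈ S, v q)) := by
          apply mul_le_mul_of_nonneg_right _ (by positivity)
          rw [hT, Finset.card_product, Finset.card_product, Nat.card_Icc, Nat.card_Icc, Nat.card_Icc]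
          simp only [Nat.add_sub_cancel]
          push_cast
          rw [mul_assoc]
          apply mul_le_mul_of_nonneg_left _ (Nat.cast_nonneg l)
          apply mul_le_mul_of_nonneg_right _ (by positivity)
          have := Nat.cast_div_le (α := ℝ) (m := 2 ^ l) (n := 2 ^ s)
          push_cast at this
          exact this
      _ = _ := by ring

open Classical in
/-- the sum over all pairs whose ratio has height in `(2 ^ l0, 2 ^ l1]` -/
lemma near_le (S : Finset ℕ) (v : ℕ → ℝ) (hS : ∀ q ∈ S, 0 < q) (hv : ∀ q ∈ S, 0 ≤ v q)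
    {k : ℕ} (hk : S.card ≤ 2 ^ k) (l0 l1 s c : ℕ) (hs : 1 ≤ s) :
    ∑ x ∈ (S ×ˢ S).filter (fun x => 2 ^ l0 < max (qa x.1 x.2) (qa x.2 x.1) ∧
        max (qa x.1 x.2) (qa x.2 x.1) ≤ 2 ^ l1),
      min (v x.1) (v x.2) / (max (qa x.1 x.2) (qa x.2 x.1) : ℝ) ^ 2 ≤
      4 * l1 * (2 ^ (s * c) / 2 ^ l0 + (l1 + 1) / 2 ^ c + l1 / 2 ^ s * ((k + 1) * 2)) *
        ∑ q ∈ S, v q := by
  have hsumv : 0 ≤ ∑ q ∈ S, v q := Finset.sum_nonneg hv
  set P := (S ×ˢ S).filter (fun x => 2 ^ l0 < max (qa x.1 x.2) (qa x.2 x.1) ∧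
        max (qa x.1 x.2) (qa x.2 x.1) ≤ 2 ^ l1) with hP
  have hmin0 : ∀ x ∈ S ×ˢ S, 0 ≤ min (v x.1) (v x.2) := by
    intro x hx
    rw [mem_product] at hx
    exact le_min (hv _ hx.1) (hv _ hx.2)
  set G : ℕ → ℕ × ℕ → Prop := fun l x => qa x.1 x.2 ≤ 2 ^ l ∧ qa x.2 x.1 ≤ 2 ^ l with hG
  have h1 : ∀ x ∈ P, min (v x.1) (v x.2) / (max (qa x.1 x.2) (qa x.2 x.1) : ℝ) ^ 2 ≤
      ∑ l ∈ Ioc l0 l1, (if G l x then (4 / 4 ^ l) * min (v x.1) (v x.2) else 0) := by
    intro x hx
    rw [hP, mem_filter] at hx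
    obtain ⟨hx1, h2, h3⟩ := hx
    set M := max (qa x.1 x.2) (qa x.2 x.1) with hM
    have hMr : (max (qa x.1 x.2) (qa x.2 x.1) : ℝ) = (M : ℝ) := by rw [hM]; push_cast; rfl
    have hM1 : 1 < M := lt_of_le_of_lt Nat.one_le_two_pow h2
    set l := Nat.clog 2 M with hl
    have h4 : M ≤ 2 ^ l := Nat.le_pow_clog (by norm_num) M
    have h5 : 2 ^ (l - 1) < M := Nat.pow_pred_clog_lt_self (by norm_num) hM1
    have h6 : l0 < l := by
      rw [← Nat.pow_lt_pow_iff_right (by norm_num : 1 < 2)]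
      omega
    have h7 : l ≤ l1 := by
      have : 2 ^ (l - 1) < 2 ^ l1 := lt_of_lt_of_le h5 h3
      rw [Nat.pow_lt_pow_iff_right (by norm_num : 1 < 2)] at this
      omega
    have hGl : G l x := ⟨(le_max_left _ _).trans h4, (le_max_right _ _).trans h4⟩
    have hm := hmin0 x hx1
    rw [hMr]
    calc min (v x.1) (v x.2) / (M : ℝ) ^ 2 ≤ (4 / 4 ^ l) * min (v x.1) (v x.2) := by
          rw [div_eq_inv_mul]
          apply mul_le_mul_of_nonneg_right _ hm
          have h8 : (4 : ℝ) ^ l = 4 * (2 ^ (l - 1)) ^ 2 := by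
            obtain ⟨l', hl'⟩ : ∃ l', l = l' + 1 := ⟨l - 1, by omega⟩
            rw [hl']
            simp only [Nat.add_sub_cancel]
            rw [pow_succ, ← pow_mul, mul_comm l' 2, pow_mul]
            norm_num
            ring
          rw [h8]
          have h9 : (2 : ℝ) ^ (l - 1) ≤ M := by exact_mod_cast h5.le
          have h10 : (0 : ℝ) < 2 ^ (l - 1) := by positivity
          rw [show (4 : ℝ) / (4 * (2 ^ (l - 1)) ^ 2) = ((2 ^ (l - 1)) ^ 2)⁻¹ by field_simp]
          apply inv_anti₀ (by positivity)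
          exact pow_le_pow_left₀ h10.le h9 2
      _ = (if G l x then (4 / 4 ^ l) * min (v x.1) (v x.2) else 0) := by rw [if_pos hGl]
      _ ≤ _ := by
          apply Finset.single_le_sum
            (f := fun l => (if G l x then (4 / 4 ^ l) * min (v x.1) (v x.2) else (0 : ℝ)))
            _ (mem_Ioc.2 ⟨h6, h7⟩)
          intro l' _
          split_ifs
          · positivity
          · exact le_rfl
  calc ∑ x ∈ P, min (v x.1) (v x.2) / (max (qa x.1 x.2) (qa x.2 x.1) : ℝ) ^ 2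
      ≤ ∑ x ∈ P, ∑ l ∈ Ioc l0 l1, (if G l x then (4 / 4 ^ l) * min (v x.1) (v x.2) else 0) :=
        Finset.sum_le_sum h1
    _ = ∑ l ∈ Ioc l0 l1, ∑ x ∈ P, (if G l x then (4 / 4 ^ l) * min (v x.1) (v x.2) else 0) :=
        Finset.sum_comm
    _ ≤ ∑ l ∈ Ioc l0 l1, (4 * (2 ^ (s * c) / 2 ^ l0 + (l1 + 1) / 2 ^ c +
          l1 / 2 ^ s * ((k + 1) * 2))) * ∑ q ∈ S, v q := by
        apply Finset.sum_le_sum
        intro l hl
        rw [mem_Ioc] at hl
        rw [← Finset.sum_filter, ← Finset.mul_sum]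
        have h2 : ∑ x ∈ P.filter (fun x => G l x), min (v x.1) (v x.2) ≤
            ∑ x ∈ (S ×ˢ S).filter (fun x => qa x.1 x.2 ≤ 2 ^ l ∧ qa x.2 x.1 ≤ 2 ^ l),
            min (v x.1) (v x.2) := by
          apply Finset.sum_le_sum_of_subset_of_nonneg
          · intro x hx
            rw [mem_filter, hP, mem_filter] at hx
            rw [mem_filter]
            exact ⟨hx.1.1, hx.2⟩
          · intro x hx _
            exact hmin0 x (Finset.mem_of_mem_filter x hx)
        have h3 := h2.trans (level_le S v hS hv hk l s c hs)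
        have h4 : (0 : ℝ) < 4 / 4 ^ l := by positivity
        calc (4 / 4 ^ l) * ∑ x ∈ P.filter (fun x => G l x), min (v x.1) (v x.2)
            ≤ (4 / 4 ^ l) * (((2 ^ (s * c) + 2 ^ l * (l + 1) / 2 ^ c) * 2 ^ l +
                l * (2 ^ l / 2 ^ s) * 2 ^ l * ((k + 1) * 2)) * ∑ q ∈ S, v q) :=
              mul_le_mul_of_nonneg_left h3 h4.le
          _ = (4 * (2 ^ (s * c) / 2 ^ l + (l + 1) / 2 ^ c + l / 2 ^ s * ((k + 1) * 2))) *
                ∑ q ∈ S, v q := by
              have h5 : (4 : ℝ) ^ l = 2 ^ l * 2 ^ l := by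
                rw [← mul_pow]; norm_num
              rw [h5]
              field_simp
          _ ≤ _ := by
              apply mul_le_mul_of_nonneg_right _ hsumv
              apply mul_le_mul_of_nonneg_left _ (by norm_num)
              have i1 : (l : ℝ) ≤ l1 := by exact_mod_cast hl.2
              have i2 : (2 : ℝ) ^ (s * c) / 2 ^ l ≤ 2 ^ (s * c) / 2 ^ l0 := by
                apply div_le_div_of_nonneg_left (by positivity) (by positivity)
                exact pow_le_pow_right₀ (by norm_num) hl.1.le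
              have i3 : ((l : ℝ) + 1) / 2 ^ c ≤ (l1 + 1) / 2 ^ c := by gcongr
              have i4 : (l : ℝ) / 2 ^ s * ((k + 1) * 2) ≤ l1 / 2 ^ s * ((k + 1) * 2) := by gcongr
              linarith
    _ = ((l1 - l0 : ℕ) : ℝ) * ((4 * (2 ^ (s * c) / 2 ^ l0 + (l1 + 1) / 2 ^ c +
          l1 / 2 ^ s * ((k + 1) * 2))) * ∑ q ∈ S, v q) := by
        rw [Finset.sum_const, nsmul_eq_mul, Nat.card_Ioc]
    _ ≤ (l1 : ℝ) * ((4 * (2 ^ (s * c) / 2 ^ l0 + (l1 + 1) / 2 ^ c +
          l1 / 2 ^ s * ((k + 1) * 2))) * ∑ q ∈ S, v q) := by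
        apply mul_le_mul_of_nonneg_right _ (by positivity)
        exact_mod_cast Nat.sub_le _ _
    _ = _ := by ring

end Pool.Agent.N761.K2
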