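import Mathlib
import Pool.Agent.N761.K2.Near

/-!
# The sum over the pairs that are not quasi-independent
-/

set_option autoImplicit false

namespace Pool.Agent.N761.K2

open Finset

/-- the constant for the comparable pairs in block `i` -/
noncomputable def nearC (i : ℕ) : ℝ :=
  (2 ^ (2 ^ i)) ^ 2 * (4 * ((4 ^ (i + 5) : ℕ) : ℝ) * (2 ^ (2 ^ (i + 4) * 2 ^ (i + 2)) /
    2 ^ (4 ^ (i + 3) + 4 ^ (i + 2)) + (((4 ^ (i + 5) : ℕ) : ℝ) + 1) / 2 ^ (2 ^ (i + 2)) +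
    ((4 ^ (i + 5) : ℕ) : ℝ) / 2 ^ (2 ^ (i + 4)) * ((((2 * 4 ^ (i + 5) + 1 : ℕ) : ℝ) + 1) * 2)))

/-- the constant for the other pairs in block `i` -/
noncomputable def farC (i : ℕ) : ℝ := (((4 ^ (i + 5) : ℕ) : ℝ) + 1) ^ 2 / 2 ^ (2 ^ i)

lemma exp_aux : ∀ i : ℕ, 10 ≤ i → 12 * i + 60 ≤ 2 ^ i := by
  intro i hi
  induction i, hi using Nat.le_induction with
  | base => norm_num
  | succ n hn ih => rw [pow_succ]; omega

lemma farC_le {i : ℕ} (hi : 10 ≤ i) : farC i ≤ (1 / 2) ^ i := by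
  unfold farC
  have h1 := exp_aux i hi
  rw [div_le_iff₀ (by positivity)]
  have h2 : (((4 ^ (i + 5) : ℕ) : ℝ) + 1) ≤ 2 ^ (2 * (i + 5) + 1) := by
    push_cast
    have h3 : (4 : ℝ) ^ (i + 5) = 2 ^ (2 * (i + 5)) := by rw [pow_mul]; norm_num
    rw [h3, pow_succ]
    have h4 : (1 : ℝ) ≤ 2 ^ (2 * (i + 5)) := one_le_pow₀ (by norm_num)
    linarith
  have h5 : (((4 ^ (i + 5) : ℕ) : ℝ) + 1) ^ 2 ≤ (2 ^ (2 * (i + 5) + 1)) ^ 2 :=
    pow_le_pow_left₀ (by positivity) h2 2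
  refine h5.trans ?_
  rw [one_div, inv_pow, ← pow_mul, inv_mul_eq_div, le_div_iff₀ (by positivity), ← pow_add]
  exact pow_le_pow_right₀ (by norm_num) (by omega)

lemma nearC_le {i : ℕ} (hi : 10 ≤ i) : nearC i ≤ 1 / 32 := by
  unfold nearC
  have h1 := exp_aux i hi
  have e4 : ((4 ^ (i + 5) : ℕ) : ℝ) = 2 ^ (2 * (i + 5)) := by
    push_cast
    rw [pow_mul]; norm_num
  have e5 : (((2 * 4 ^ (i + 5) + 1 : ℕ) : ℝ) + 1) * 2 ≤ 2 ^ (2 * (i + 5) + 3) := by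
    push_cast
    have h3 : (4 : ℝ) ^ (i + 5) = 2 ^ (2 * (i + 5)) := by rw [pow_mul]; norm_num
    rw [h3, pow_add (2 : ℝ) (2 * (i + 5)) 3]
    have h4 : (1 : ℝ) ≤ 2 ^ (2 * (i + 5)) := one_le_pow₀ (by norm_num)
    linarith
  have e6 : (((4 ^ (i + 5) : ℕ) : ℝ) + 1) ≤ 2 ^ (2 * (i + 5) + 1) := by
    rw [e4, pow_succ]
    have h4 : (1 : ℝ) ≤ 2 ^ (2 * (i + 5)) := one_le_pow₀ (by norm_num)
    linarith
  set x := 2 ^ i with hx
  have g4 : 4 ^ i = x * x := by rw [hx, ← mul_pow]; norm_num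
  have p0 : 2 ^ (i + 2) = 4 * x := by rw [hx]; ring
  have p1 : 2 ^ (i + 4) = 16 * x := by rw [hx]; ring
  have p3 : 4 ^ (i + 3) = 64 * (x * x) := by rw [← g4]; ring
  have p4 : 4 ^ (i + 2) = 16 * (x * x) := by rw [← g4]; ring
  rw [p0, p1, p3, p4, e4]
  have hxx : x ≤ x * x := by nlinarith
  -- three terms
  have t1 : (2 : ℝ) ^ (16 * x * (4 * x)) / 2 ^ (64 * (x * x) + 16 * (x * x)) ≤
      1 / 2 ^ (4 * x) := by
    rw [div_le_div_iff₀ (by positivity) (by positivity), one_mul, ← pow_add]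
    apply pow_le_pow_right₀ (by norm_num)
    nlinarith
  have t2 : (((2 : ℝ) ^ (2 * (i + 5))) + 1) / 2 ^ (4 * x) ≤ 2 ^ (2 * (i + 5) + 1) / 2 ^ (4 * x) := by
    apply div_le_div_of_nonneg_right _ (by positivity)
    rw [← e4]
    exact e6
  have t3 : (2 : ℝ) ^ (2 * (i + 5)) / 2 ^ (16 * x) * ((((2 * 4 ^ (i + 5) + 1 : ℕ) : ℝ) + 1) * 2) ≤
      2 ^ (4 * i + 23) / 2 ^ (4 * x) := by
    calc (2 : ℝ) ^ (2 * (i + 5)) / 2 ^ (16 * x) * ((((2 * 4 ^ (i + 5) + 1 : ℕ) : ℝ) + 1) * 2)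
        ≤ (2 : ℝ) ^ (2 * (i + 5)) / 2 ^ (16 * x) * 2 ^ (2 * (i + 5) + 3) :=
          mul_le_mul_of_nonneg_left e5 (by positivity)
      _ = 2 ^ (4 * i + 23) / 2 ^ (16 * x) := by
          rw [div_mul_eq_mul_div, ← pow_add]
          congr 2
          ring
      _ ≤ _ := by
          apply div_le_div_of_nonneg_left (by positivity) (by positivity)
          exact pow_le_pow_right₀ (by norm_num) (by omega)
  have t4 : (1 : ℝ) / 2 ^ (4 * x) ≤ 2 ^ (4 * i + 23) / 2 ^ (4 * x) := by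
    apply div_le_div_of_nonneg_right _ (by positivity)
    exact one_le_pow₀ (by norm_num)
  have t5 : (2 : ℝ) ^ (2 * (i + 5) + 1) / 2 ^ (4 * x) ≤ 2 ^ (4 * i + 23) / 2 ^ (4 * x) := by
    apply div_le_div_of_nonneg_right _ (by positivity)
    exact pow_le_pow_right₀ (by norm_num) (by omega)
  have t6 : (2 : ℝ) ^ (16 * x * (4 * x)) / 2 ^ (64 * (x * x) + 16 * (x * x)) +
      (((2 : ℝ) ^ (2 * (i + 5))) + 1) / 2 ^ (4 * x) +
      (2 : ℝ) ^ (2 * (i + 5)) / 2 ^ (16 * x) * ((((2 * 4 ^ (i + 5) + 1 : ℕ) : ℝ) + 1) * 2) ≤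
      2 ^ (4 * i + 25) / 2 ^ (4 * x) := by
    have e7 : (2 : ℝ) ^ (4 * i + 25) / 2 ^ (4 * x) = 4 * (2 ^ (4 * i + 23) / 2 ^ (4 * x)) := by
      rw [show 4 * i + 25 = (4 * i + 23) + 2 by ring, pow_add]
      ring
    rw [e7]
    have : (0 : ℝ) ≤ 2 ^ (4 * i + 23) / 2 ^ (4 * x) := by positivity
    linarith
  calc _ ≤ ((2 : ℝ) ^ x) ^ 2 * (4 * 2 ^ (2 * (i + 5)) * (2 ^ (4 * i + 25) / 2 ^ (4 * x))) := by
        apply mul_le_mul_of_nonneg_left _ (by positivity)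
        exact mul_le_mul_of_nonneg_left t6 (by positivity)
    _ = 2 ^ (2 * x + 2 + 2 * (i + 5) + (4 * i + 25)) / 2 ^ (4 * x) := by
        rw [pow_add, pow_add, pow_add]
        ring
    _ ≤ 1 / 32 := by
        rw [div_le_div_iff₀ (by positivity) (by norm_num), one_mul,
          show (32 : ℝ) = 2 ^ 5 by norm_num, ← pow_add]
        exact pow_le_pow_right₀ (by norm_num) (by omega)

/-- the hypotheses on the finite set `S` -/
structure Blocks (ψ : ℕ → ℝ) (S : Finset ℕ) (blk : ℕ → ℕ) : Prop where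
  pos : ∀ q ∈ S, 0 < q
  lo : ∀ q ∈ S, (1 / 2 : ℝ) ^ (4 ^ (blk q + 5)) < ψ q
  hi : ∀ q ∈ S, ψ q ≤ (1 / 2 : ℝ) ^ (4 ^ (blk q + 4))
  large : ∀ q ∈ S, 10 ≤ blk q
  gap : ∀ q ∈ S, ∀ r ∈ S, blk q < blk r → blk q + 2 ≤ blk r
  mass : ∑ q ∈ S, ψ q ^ 2 ≤ 2

variable {ψ : ℕ → ℝ} {S : Finset ℕ} {blk : ℕ → ℕ}

lemma Blocks.ψpos (H : Blocks ψ S blk) {q : ℕ} (hq : q ∈ S) : 0 < ψ q :=
  lt_trans (by positivity) (H.lo q hq)

lemma Blocks.bound (H : Blocks ψ S blk) {r : ℕ} (hr : r ∈ S) {m : ℕ} {x : ℝ} (hx : ψ r ≤ x)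
    (h : (m : ℝ) * x < 1 / 2) : m ≤ 2 ^ (4 ^ (blk r + 5)) := by
  have h1 := H.lo r hr
  have h2 : (m : ℝ) * (1 / 2 : ℝ) ^ (4 ^ (blk r + 5)) ≤ 1 / 2 := by
    have h3 : (m : ℝ) * (1 / 2 : ℝ) ^ (4 ^ (blk r + 5)) ≤ m * x :=
      mul_le_mul_of_nonneg_left (h1.le.trans hx) (Nat.cast_nonneg m)
    linarith
  have h4 : (m : ℝ) ≤ 2 ^ (4 ^ (blk r + 5)) := by
    rw [one_div, inv_pow, ← div_eq_mul_inv, div_le_iff₀ (by positivity)] at h2
    have h5 : (0 : ℝ) < 2 ^ (4 ^ (blk r + 5)) := by positivity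
    linarith
  exact_mod_cast h4

lemma Blocks.near_same (H : Blocks ψ S blk) {q r : ℕ} (hq : q ∈ S) (hr : r ∈ S)
    (h1 : ψ r ≤ ψ q) (h2 : ψ q ≤ 2 ^ (2 ^ blk r) * ψ r) : blk q = blk r := by
  rcases lt_trichotomy (blk q) (blk r) with h | h | h
  · exfalso
    have h3 := H.gap q hq r hr h
    have h4 := H.lo q hq
    have h5 := H.hi r hr
    have h6 : (1 / 2 : ℝ) ^ (4 ^ (blk r + 3)) ≤ (1 / 2 : ℝ) ^ (4 ^ (blk q + 5)) := by
      apply pow_le_pow_of_le_one (by norm_num) (by norm_num)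
      exact Nat.pow_le_pow_right (by norm_num) (by omega)
    have h7 : (2 : ℝ) ^ (2 ^ blk r) * ψ r ≤ 2 ^ (2 ^ blk r) * (1 / 2 : ℝ) ^ (4 ^ (blk r + 4)) :=
      mul_le_mul_of_nonneg_left h5 (by positivity)
    have h8 : (2 : ℝ) ^ (2 ^ blk r) * (1 / 2 : ℝ) ^ (4 ^ (blk r + 4)) ≤
        (1 / 2 : ℝ) ^ (4 ^ (blk r + 3)) := by
      rw [one_div, inv_pow, inv_pow, ← div_eq_mul_inv, div_le_iff₀ (by positivity), inv_mul_eq_div,
        le_div_iff₀ (by positivity), ← pow_add]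
      apply pow_le_pow_right₀ (by norm_num)
      have h9 : 2 ^ blk r ≤ 4 ^ blk r := Nat.pow_le_pow_left (by norm_num) _
      rw [pow_add, pow_add]
      have h10 : 0 < 4 ^ blk r := by positivity
      nlinarith
    linarith
  · exact h
  · exfalso
    have h4 := H.lo r hr
    have h5 := H.hi q hq
    have h6 : (1 / 2 : ℝ) ^ (4 ^ (blk q + 4)) ≤ (1 / 2 : ℝ) ^ (4 ^ (blk r + 5)) := by
      apply pow_le_pow_of_le_one (by norm_num) (by norm_num)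
      exact Nat.pow_le_pow_right (by norm_num) (by omega)
    linarith

lemma Blocks.card_le (H : Blocks ψ S blk) (j : ℕ) :
    (S.filter (fun q => blk q = j)).card ≤ 2 ^ (2 * 4 ^ (j + 5) + 1) := by
  have h1 : ((S.filter (fun q => blk q = j)).card : ℝ) * ((1 / 2 : ℝ) ^ (4 ^ (j + 5))) ^ 2 ≤ 2 := by
    calc ((S.filter (fun q => blk q = j)).card : ℝ) * ((1 / 2 : ℝ) ^ (4 ^ (j + 5))) ^ 2
        = ∑ q ∈ S.filter (fun q => blk q = j), ((1 / 2 : ℝ) ^ (4 ^ (j + 5))) ^ 2 := by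
          rw [Finset.sum_const, nsmul_eq_mul]
      _ ≤ ∑ q ∈ S.filter (fun q => blk q = j), ψ q ^ 2 := by
          apply Finset.sum_le_sum
          intro q hq
          rw [mem_filter] at hq
          apply pow_le_pow_left₀ (by positivity)
          have := H.lo q hq.1
          rw [hq.2] at this
          exact this.le
      _ ≤ ∑ q ∈ S, ψ q ^ 2 :=
          Finset.sum_le_sum_of_subset_of_nonneg (Finset.filter_subset _ _)
            (fun _ _ _ => sq_nonneg _)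
      _ ≤ 2 := H.mass
  rw [← pow_mul, one_div, inv_pow, ← div_eq_mul_inv, div_le_iff₀ (by positivity)] at h1
  have h2 : ((S.filter (fun q => blk q = j)).card : ℝ) ≤ 2 ^ (2 * 4 ^ (j + 5) + 1) := by
    refine h1.trans (le_of_eq ?_)
    rw [mul_comm (4 ^ (j + 5)) 2, pow_succ (2 : ℝ) (2 * 4 ^ (j + 5)), mul_comm]
  exact_mod_cast h2

/-- the weight of a pair -/
noncomputable def wt (ψ : ℕ → ℝ) (q r : ℕ) : ℝ := min (ψ q / qa q r) (ψ r / qa r q) ^ 2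

/-- a bad pair -/
def BadP (ψ : ℕ → ℝ) (blk : ℕ → ℕ) (q r : ℕ) : Prop :=
  q ≠ r ∧ (qa r q : ℝ) * ψ q < 1 / 2 ∧ (qa q r : ℝ) * ψ r < 1 / 2 ∧
    (blk q = blk r → 2 ^ (4 ^ (blk q + 3) + 4 ^ (blk q + 2)) < max (qa q r) (qa r q))

lemma wt_nonneg (q r : ℕ) : 0 ≤ wt ψ q r := sq_nonneg _

lemma wt_comm (q r : ℕ) : wt ψ q r = wt ψ r q := by
  unfold wt
  rw [min_comm]

lemma BadP.symm {q r : ℕ} (h : BadP ψ blk q r) : BadP ψ blk r q := by
  refine ⟨h.1.symm, h.2.2.1, h.2.1, fun h' => ?_⟩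
  rw [max_comm, h']
  exact h.2.2.2 h'.symm

open Classical in
lemma far_sum (H : Blocks ψ S blk) {q : ℕ} (hq : q ∈ S) :
    ∑ r ∈ S.filter (fun r => BadP ψ blk q r ∧ ψ r ≤ ψ q ∧ 2 ^ (2 ^ blk r) * ψ r < ψ q), wt ψ q r ≤
      ψ q ^ 2 * ∑ j ∈ S.image blk, farC j := by
  set R := S.filter (fun r => BadP ψ blk q r ∧ ψ r ≤ ψ q ∧ 2 ^ (2 ^ blk r) * ψ r < ψ q) with hR
  have hq0 := H.pos q hq
  have hψq := H.ψpos hq
  rw [← Finset.sum_fiberwise_of_maps_to (s := R) (t := S.image blk) (g := blk)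
    (fun r hr => mem_image_of_mem _ (Finset.mem_of_mem_filter r hr)), Finset.mul_sum]
  apply Finset.sum_le_sum
  intro j _
  have h1 : ∑ r ∈ R.filter (fun r => blk r = j), wt ψ q r ≤
      ∑ r ∈ R.filter (fun r => blk r = j),
        (fun a b : ℕ => ψ q ^ 2 / 2 ^ (2 ^ j) * ((1 / (a : ℝ)) * (1 / (b : ℝ)))) (qa q r) (qa r q) := by
    apply Finset.sum_le_sum
    intro r hr
    rw [mem_filter, hR, mem_filter] at hr
    obtain ⟨⟨hrS, hbad, hle, hfar⟩, hj⟩ := hr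
    have hr0 := H.pos r hrS
    have hψr := H.ψpos hrS
    have ha : (0 : ℝ) < qa q r := by exact_mod_cast qa_pos hq0
    have hb : (0 : ℝ) < qa r q := by exact_mod_cast qa_pos hr0
    unfold wt
    have h2 : min (ψ q / qa q r) (ψ r / qa r q) ^ 2 ≤ (ψ q / qa q r) * (ψ r / qa r q) := by
      rw [sq]
      apply mul_le_mul (min_le_left _ _) (min_le_right _ _)
      · exact le_min (by positivity) (by positivity)
      · positivity
    refine h2.trans ?_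
    have h3 : ψ r ≤ ψ q / 2 ^ (2 ^ j) := by
      rw [le_div_iff₀ (by positivity), mul_comm]
      rw [hj] at hfar
      exact hfar.le
    calc (ψ q / qa q r) * (ψ r / qa r q) ≤ (ψ q / qa q r) * ((ψ q / 2 ^ (2 ^ j)) / qa r q) := by
          apply mul_le_mul_of_nonneg_left _ (by positivity)
          exact div_le_div_of_nonneg_right h3 hb.le
      _ = _ := by ring
  refine h1.trans ?_
  have h2 := sum_qa_le hq0 (R.filter (fun r => blk r = j)) (Icc 1 (2 ^ (4 ^ (j + 5))))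
    (Icc 1 (2 ^ (4 ^ (j + 5))))
    (fun a b : ℕ => ψ q ^ 2 / 2 ^ (2 ^ j) * ((1 / (a : ℝ)) * (1 / (b : ℝ))))
    (fun a _ b _ => by positivity) (by
      intro r hr
      rw [mem_filter, hR, mem_filter] at hr
      obtain ⟨⟨hrS, hbad, hle, hfar⟩, hj⟩ := hr
      rw [mem_Icc, mem_Icc]
      have b1 := H.bound hrS le_rfl hbad.2.2.1
      have b2 := H.bound hrS hle hbad.2.1
      rw [hj] at b1 b2
      exact ⟨⟨qa_pos hq0, b1⟩, qa_pos (H.pos r hrS), b2⟩)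
  refine h2.trans ?_
  have h3 := H_le (2 ^ (4 ^ (j + 5))) (4 ^ (j + 5)) le_rfl
  have h4 : (0 : ℝ) ≤ ∑ d ∈ Icc (1 : ℕ) (2 ^ (4 ^ (j + 5))), (1 / (d : ℝ)) :=
    Finset.sum_nonneg (fun _ _ => by positivity)
  have h5 : (∑ i ∈ Icc (1 : ℕ) (2 ^ 4 ^ (j + 5)), 1 / (i : ℝ)) *
      ∑ i ∈ Icc (1 : ℕ) (2 ^ 4 ^ (j + 5)), 1 / (i : ℝ) ≤
      (((4 ^ (j + 5) : ℕ) : ℝ) + 1) * (((4 ^ (j + 5) : ℕ) : ℝ) + 1) :=
    mul_le_mul h3 h3 h4 (by positivity)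
  have h6 : ∑ a ∈ Icc (1 : ℕ) (2 ^ (4 ^ (j + 5))), ∑ b ∈ Icc (1 : ℕ) (2 ^ (4 ^ (j + 5))),
      (ψ q ^ 2 / 2 ^ (2 ^ j) * ((1 / (a : ℝ)) * (1 / (b : ℝ)))) =
      ψ q ^ 2 / 2 ^ (2 ^ j) * ((∑ i ∈ Icc (1 : ℕ) (2 ^ 4 ^ (j + 5)), 1 / (i : ℝ)) *
      ∑ i ∈ Icc (1 : ℕ) (2 ^ 4 ^ (j + 5)), 1 / (i : ℝ)) := by
    rw [Finset.sum_mul_sum, Finset.mul_sum]
    apply Finset.sum_congr rfl
    intro a _
    rw [Finset.mul_sum]
  rw [h6]
  generalize (∑ i ∈ Icc (1 : ℕ) (2 ^ 4 ^ (j + 5)), 1 / (i : ℝ)) = sm at h5 ⊢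
  have h7 : ψ q ^ 2 * farC j = ψ q ^ 2 / 2 ^ (2 ^ j) *
      ((((4 ^ (j + 5) : ℕ) : ℝ) + 1) * (((4 ^ (j + 5) : ℕ) : ℝ) + 1)) := by
    unfold farC
    generalize (((4 ^ (j + 5) : ℕ) : ℝ) + 1) = z
    generalize (2 : ℝ) ^ (2 ^ j) = w
    ring
  rw [h7]
  exact mul_le_mul_of_nonneg_left h5 (by positivity)

open Classical in
lemma near_sum (H : Blocks ψ S blk) :
    ∑ x ∈ (S ×ˢ S).filter (fun x => BadP ψ blk x.1 x.2 ∧ ψ x.2 ≤ ψ x.1 ∧
      ψ x.1 ≤ 2 ^ (2 ^ blk x.2) * ψ x.2), wt ψ x.1 x.2 ≤ 1 / 32 * ∑ q ∈ S, ψ q ^ 2 := by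
  set P := (S ×ˢ S).filter (fun x => BadP ψ blk x.1 x.2 ∧ ψ x.2 ≤ ψ x.1 ∧
      ψ x.1 ≤ 2 ^ (2 ^ blk x.2) * ψ x.2) with hP
  rw [← Finset.sum_fiberwise_of_maps_to (s := P) (t := S.image blk) (g := fun x => blk x.2)
    (fun x hx => by
      rw [hP, mem_filter, mem_product] at hx
      exact mem_image_of_mem _ hx.1.2)]
  have hS : ∑ q ∈ S, ψ q ^ 2 = ∑ j ∈ S.image blk, ∑ q ∈ S.filter (fun q => blk q = j), ψ q ^ 2 :=
    (Finset.sum_fiberwise_of_maps_to (fun q hq => mem_image_of_mem _ hq) _).symm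
  rw [hS, Finset.mul_sum]
  apply Finset.sum_le_sum
  intro j hj
  set Sj := S.filter (fun q => blk q = j) with hSj
  have hSjpos : ∀ q ∈ Sj, 0 < q := fun q hq => H.pos q (Finset.mem_of_mem_filter q hq)
  have h1 := near_le Sj (fun q => ψ q ^ 2) hSjpos (fun q _ => sq_nonneg _) (H.card_le j)
    (4 ^ (j + 3) + 4 ^ (j + 2)) (4 ^ (j + 5)) (2 ^ (j + 4)) (2 ^ (j + 2)) Nat.one_le_two_pow
  have hj10 : 10 ≤ j := by
    rw [mem_image] at hj
    obtain ⟨q, hq, rfl⟩ := hj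
    exact H.large q hq
  have hmass : 0 ≤ ∑ q ∈ Sj, ψ q ^ 2 := Finset.sum_nonneg (fun _ _ => sq_nonneg _)
  have h2 : ∑ x ∈ P.filter (fun x => blk x.2 = j), wt ψ x.1 x.2 ≤
      ∑ x ∈ (Sj ×ˢ Sj).filter (fun x => 2 ^ (4 ^ (j + 3) + 4 ^ (j + 2)) <
        max (qa x.1 x.2) (qa x.2 x.1) ∧ max (qa x.1 x.2) (qa x.2 x.1) ≤ 2 ^ (4 ^ (j + 5))),
        (2 ^ (2 ^ j)) ^ 2 *
        (min (ψ x.1 ^ 2) (ψ x.2 ^ 2) / (max (qa x.1 x.2) (qa x.2 x.1) : ℝ) ^ 2) := by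
    have hsub : P.filter (fun x => blk x.2 = j) ⊆ (Sj ×ˢ Sj).filter (fun x =>
        2 ^ (4 ^ (j + 3) + 4 ^ (j + 2)) <
        max (qa x.1 x.2) (qa x.2 x.1) ∧ max (qa x.1 x.2) (qa x.2 x.1) ≤ 2 ^ (4 ^ (j + 5))) := by
      intro x hx
      rw [mem_filter, hP, mem_filter, mem_product] at hx
      obtain ⟨⟨⟨hx1, hx2⟩, hbad, hle, hnear⟩, hj'⟩ := hx
      have hsame := H.near_same hx1 hx2 hle hnear
      have b1 := H.bound hx2 le_rfl hbad.2.2.1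
      have b2 := H.bound hx2 hle hbad.2.1
      have b3 := hbad.2.2.2 hsame
      rw [mem_filter, mem_product, hSj, mem_filter, mem_filter]
      rw [hsame] at b3
      rw [hj'] at b1 b2 b3
      exact ⟨⟨⟨hx1, hsame.trans hj'⟩, hx2, hj'⟩, b3, max_le b1 b2⟩
    refine le_trans (Finset.sum_le_sum ?_) (Finset.sum_le_sum_of_subset_of_nonneg hsub ?_)
    · intro x hx
      rw [mem_filter, hP, mem_filter, mem_product] at hx
      obtain ⟨⟨⟨hx1, hx2⟩, hbad, hle, hnear⟩, hj'⟩ := hx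
      have hψ1 := H.ψpos hx1
      have hψ2 := H.ψpos hx2
      have ha : (0 : ℝ) < qa x.1 x.2 := by exact_mod_cast qa_pos (H.pos _ hx1)
      have hb : (0 : ℝ) < qa x.2 x.1 := by exact_mod_cast qa_pos (H.pos _ hx2)
      have hmin : min (ψ x.1 ^ 2) (ψ x.2 ^ 2) = ψ x.2 ^ 2 :=
        min_eq_right (pow_le_pow_left₀ hψ2.le hle 2)
      rw [hmin, ← div_pow, ← mul_pow]
      unfold wt
      apply pow_le_pow_left₀ (le_min (by positivity) (by positivity))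
      rw [hj'] at hnear
      have hΛ : (1 : ℝ) ≤ 2 ^ (2 ^ j) := one_le_pow₀ (by norm_num)
      rcases le_total (qa x.1 x.2 : ℝ) (qa x.2 x.1 : ℝ) with h | h
      · rw [max_eq_right h]
        refine (min_le_right _ _).trans ?_
        have : 0 ≤ ψ x.2 / qa x.2 x.1 := by positivity
        nlinarith
      · rw [max_eq_left h]
        refine (min_le_left _ _).trans ?_
        rw [← mul_div_assoc]
        exact div_le_div_of_nonneg_right hnear ha.le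
    · intro x _ _
      have : 0 ≤ min (ψ x.1 ^ 2) (ψ x.2 ^ 2) := le_min (sq_nonneg _) (sq_nonneg _)
      positivity
  refine h2.trans ?_
  rw [← Finset.mul_sum]
  calc _ ≤ (2 ^ (2 ^ j)) ^ 2 * _ := mul_le_mul_of_nonneg_left h1 (by positivity)
    _ = nearC j * ∑ q ∈ Sj, ψ q ^ 2 := by
        unfold nearC
        ring
    _ ≤ 1 / 32 * ∑ q ∈ Sj, ψ q ^ 2 := mul_le_mul_of_nonneg_right (nearC_le hj10) hmass

lemma sum_half_le (J : Finset ℕ) (hJ : ∀ j ∈ J, 10 ≤ j) : ∑ j ∈ J, farC j ≤ 1 / 32 := by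
  calc ∑ j ∈ J, farC j ≤ ∑ j ∈ J, (1 / 2 : ℝ) ^ j :=
        Finset.sum_le_sum (fun j hj => farC_le (hJ j hj))
    _ ≤ ∑ j ∈ (Finset.Ico 10 (J.sup id + 11)), (1 / 2 : ℝ) ^ j := by
        apply Finset.sum_le_sum_of_subset_of_nonneg
        · intro j hj
          rw [mem_Ico]
          have := Finset.le_sup (f := id) hj
          simp only [id] at this
          exact ⟨hJ j hj, by omega⟩
        · intro _ _ _
          positivity
    _ ≤ 1 / 32 := by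
        rw [geom_sum_Ico (by norm_num) (by omega)]
        have h1 : (0 : ℝ) ≤ (1 / 2) ^ (J.sup id + 11) := by positivity
        have h2 : ((1 / 2 : ℝ) ^ 10) = 1 / 1024 := by norm_num
        rw [h2]
        generalize (1 / 2 : ℝ) ^ (J.sup id + 11) = z at h1
        have h3 : (z - 1 / 1024) / (1 / 2 - 1) = 2 * (1 / 1024 - z) := by
          field_simp
          ring
        rw [h3]
        linarith

open Classical in
theorem bad_sum (H : Blocks ψ S blk) :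
    ∑ x ∈ (S ×ˢ S).filter (fun x => BadP ψ blk x.1 x.2), wt ψ x.1 x.2 ≤
      1 / 8 * ∑ q ∈ S, ψ q ^ 2 := by
  set P := (S ×ˢ S).filter (fun x => BadP ψ blk x.1 x.2 ∧ ψ x.2 ≤ ψ x.1) with hP
  have hmass : 0 ≤ ∑ q ∈ S, ψ q ^ 2 := Finset.sum_nonneg (fun _ _ => sq_nonneg _)
  have h1 : ∑ x ∈ (S ×ˢ S).filter (fun x => BadP ψ blk x.1 x.2), wt ψ x.1 x.2 ≤
      ∑ x ∈ P, wt ψ x.1 x.2 + ∑ x ∈ (S ×ˢ S).filter (fun x => BadP ψ blk x.1 x.2 ∧ ψ x.1 ≤ ψ x.2),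
        wt ψ x.1 x.2 := by
    rw [← Finset.sum_filter_add_sum_filter_not ((S ×ˢ S).filter (fun x => BadP ψ blk x.1 x.2))
      (fun x => ψ x.2 ≤ ψ x.1)]
    apply add_le_add
    · rw [Finset.filter_filter]
    · rw [Finset.filter_filter]
      apply Finset.sum_le_sum_of_subset_of_nonneg
      · intro x hx
        rw [mem_filter] at hx ⊢
        exact ⟨hx.1, hx.2.1, (not_le.1 hx.2.2).le⟩
      · intro _ _ _
        exact wt_nonneg _ _
  have h2 : ∑ x ∈ (S ×ˢ S).filter (fun x => BadP ψ blk x.1 x.2 ∧ ψ x.1 ≤ ψ x.2),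
        wt ψ x.1 x.2 = ∑ x ∈ P, wt ψ x.1 x.2 := by
    refine Finset.sum_bij' (fun x _ => (x.2, x.1)) (fun x _ => (x.2, x.1)) ?_ ?_
      (fun _ _ => rfl) (fun _ _ => rfl) (fun _ _ => wt_comm _ _)
    · intro x hx
      rw [mem_filter, mem_product] at hx
      rw [hP, mem_filter, mem_product]
      exact ⟨⟨hx.1.2, hx.1.1⟩, hx.2.1.symm, hx.2.2⟩
    · intro x hx
      rw [hP, mem_filter, mem_product] at hx
      rw [mem_filter, mem_product]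
      exact ⟨⟨hx.1.2, hx.1.1⟩, hx.2.1.symm, hx.2.2⟩
  have h3 : ∑ x ∈ P, wt ψ x.1 x.2 ≤ 1 / 16 * ∑ q ∈ S, ψ q ^ 2 := by
    rw [← Finset.sum_filter_add_sum_filter_not P (fun x => ψ x.1 ≤ 2 ^ (2 ^ blk x.2) * ψ x.2)]
    have e1 : ∑ x ∈ P.filter (fun x => ψ x.1 ≤ 2 ^ (2 ^ blk x.2) * ψ x.2), wt ψ x.1 x.2 ≤
        1 / 32 * ∑ q ∈ S, ψ q ^ 2 := by
      rw [hP, Finset.filter_filter]
      refine le_trans (le_of_eq ?_) (near_sum H)
      apply Finset.sum_congr _ (fun _ _ => rfl)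
      ext x
      simp only [mem_filter, and_assoc]
    have e2 : ∑ x ∈ P.filter (fun x => ¬ ψ x.1 ≤ 2 ^ (2 ^ blk x.2) * ψ x.2), wt ψ x.1 x.2 ≤
        1 / 32 * ∑ q ∈ S, ψ q ^ 2 := by
      rw [hP, Finset.filter_filter, Finset.sum_filter, Finset.sum_product]
      have e3 : ∀ q ∈ S, ∑ r ∈ S, (if ((BadP ψ blk (q, r).1 (q, r).2 ∧ ψ (q, r).2 ≤ ψ (q, r).1) ∧
          ¬ψ (q, r).1 ≤ 2 ^ 2 ^ blk (q, r).2 * ψ (q, r).2) then wt ψ (q, r).1 (q, r).2 else 0) ≤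
          1 / 32 * ψ q ^ 2 := by
        intro q hq
        rw [← Finset.sum_filter]
        have e4 := far_sum H hq
        have e5 := sum_half_le (S.image blk) (by
          intro j hj
          rw [mem_image] at hj
          obtain ⟨r, hr, rfl⟩ := hj
          exact H.large r hr)
        refine le_trans (le_of_eq ?_) (e4.trans ?_)
        · apply Finset.sum_congr _ (fun _ _ => rfl)
          ext r
          simp only [mem_filter, not_le, and_assoc]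
        · rw [mul_comm (1 / 32 : ℝ)]
          exact mul_le_mul_of_nonneg_left e5 (sq_nonneg _)
      rw [Finset.mul_sum]
      exact Finset.sum_le_sum e3
    linarith
  linarith

end Pool.Agent.N761.K2
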