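import Mathlib
import Pool.Agent.N761.K2.Bad

/-!
# Overlaps of two systems of boxes
-/

set_option autoImplicit false

namespace Pool.Agent.N761.K2

open Finset MeasureTheory

/-- the interval of the points `x` with `|q x - a - y| < δ` -/
def I1 (δ : ℝ) (q : ℕ) (y : ℝ) (a : ℤ) : Set ℝ := Set.Ioo ((a + y - δ) / q) ((a + y + δ) / q)

lemma mem_I1 {δ : ℝ} {q : ℕ} {y : ℝ} {a : ℤ} {x : ℝ} (hq : 0 < q) :
    x ∈ I1 δ q y a ↔ |(q : ℝ) * x - a - y| < δ := by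
  have hq' : (0 : ℝ) < q := by exact_mod_cast hq
  unfold I1
  rw [Set.mem_Ioo, div_lt_iff₀ hq', lt_div_iff₀ hq', abs_lt]
  constructor
  · rintro ⟨h1, h2⟩
    constructor <;> linarith
  · rintro ⟨h1, h2⟩
    constructor <;> linarith

lemma vol_I1 {δ : ℝ} {q : ℕ} {y : ℝ} {a : ℤ} (hδ : 0 ≤ δ) :
    volume.real (I1 δ q y a) = 2 * (δ / q) := by
  unfold I1
  rw [Real.volume_real_Ioo_of_le]
  · ring
  · apply div_le_div_of_nonneg_right _ (Nat.cast_nonneg q)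
    linarith

lemma vol_I1_ne_top {δ : ℝ} {q : ℕ} {y : ℝ} {a : ℤ} : volume (I1 δ q y a) ≠ ⊤ := by
  unfold I1
  exact measure_Ioo_lt_top.ne

lemma meet_I1 {δ δ' : ℝ} {q r : ℕ} {y : ℝ} {a b : ℤ} (hq : 0 < q) (hr : 0 < r)
    (h : (I1 δ q y a ∩ I1 δ' r y b).Nonempty) :
    |((a : ℝ) + y) * qa r q - ((b : ℝ) + y) * qa q r| < qa r q * δ + qa q r * δ' := by
  obtain ⟨x, h1, h2⟩ := h
  rw [mem_I1 hq] at h1
  rw [mem_I1 hr] at h2
  have e1 : (q : ℝ) = Nat.gcd q r * qa q r := by exact_mod_cast (gcd_mul_qa q r).symm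
  have e2 : (r : ℝ) = Nat.gcd q r * qa r q := by exact_mod_cast (gcd_mul_qa' q r).symm
  have ha : (0 : ℝ) < qa q r := by exact_mod_cast qa_pos hq
  have hb : (0 : ℝ) < qa r q := by exact_mod_cast qa_pos hr
  have e3 : ((a : ℝ) + y) * qa r q - ((b : ℝ) + y) * qa q r =
      qa q r * ((r : ℝ) * x - b - y) - qa r q * ((q : ℝ) * x - a - y) := by
    rw [e1, e2]; ring
  rw [e3]
  calc |(qa q r : ℝ) * ((r : ℝ) * x - b - y) - qa r q * ((q : ℝ) * x - a - y)|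
      ≤ |(qa q r : ℝ) * ((r : ℝ) * x - b - y)| + |(qa r q : ℝ) * ((q : ℝ) * x - a - y)| := abs_sub _ _
    _ = qa q r * |(r : ℝ) * x - b - y| + qa r q * |(q : ℝ) * x - a - y| := by
        rw [abs_mul, abs_mul, abs_of_pos ha, abs_of_pos hb]
    _ < qa q r * δ' + qa r q * δ :=
        add_lt_add (mul_lt_mul_of_pos_left h2 ha) (mul_lt_mul_of_pos_left h1 hb)
    _ = _ := by ring

open Classical in
lemma count1 {q r : ℕ} (hq : 0 < q) (hr : 0 < r) (y W : ℝ) (hW : 0 ≤ W) (α β : ℤ) :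
    (((Ico α (α + q) ×ˢ Ico β (β + r)).filter (fun x : ℤ × ℤ =>
      |((x.1 : ℝ) + y) * qa r q - ((x.2 : ℝ) + y) * qa q r| < W)).card : ℝ) ≤
      Nat.gcd q r * (2 * W + 1) := by
  set g := Nat.gcd q r with hg
  set q' := qa q r with hq'
  set r' := qa r q with hr'
  have e1 : g * q' = q := gcd_mul_qa q r
  have hq'0 : 0 < q' := qa_pos hq
  have hr'0 : 0 < r' := qa_pos hr
  have hcop : IsCoprime (q' : ℤ) (r' : ℤ) := Nat.isCoprime_iff_coprime.2 (coprime_qa hq)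
  set θ : ℝ := -(((r' : ℝ) - q') * y) with hθ
  set T := Icc ⌈θ - W⌉ ⌊θ + W⌋ with hT
  have hinj : ((Ico α (α + q) ×ˢ Ico β (β + r)).filter (fun x : ℤ × ℤ =>
      |((x.1 : ℝ) + y) * r' - ((x.2 : ℝ) + y) * q'| < W)).card ≤ (range g ×ˢ T).card := by
    apply Finset.card_le_card_of_injOn
      (fun x : ℤ × ℤ => (((x.1 - α) / (q' : ℤ)).toNat, x.1 * r' - x.2 * q'))
    · intro x hx
      rw [mem_coe, mem_filter, mem_product, mem_Ico, mem_Ico] at hx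
      obtain ⟨⟨⟨h1, h2⟩, h3, h4⟩, h5⟩ := hx
      rw [mem_coe, mem_product, mem_range, hT, mem_Icc, Int.ceil_le, Int.le_floor]
      rw [abs_lt] at h5
      refine ⟨?_, ?_, ?_⟩
      · have h6 : (x.1 - α) / (q' : ℤ) < g := by
          apply Int.ediv_lt_of_lt_mul (by exact_mod_cast hq'0)
          have : (g : ℤ) * q' = q := by exact_mod_cast e1
          rw [this]
          linarith
        have h7 : 0 ≤ (x.1 - α) / (q' : ℤ) := Int.ediv_nonneg (by linarith) (by positivity)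
        show ((x.1 - α) / (q' : ℤ)).toNat < g
        omega
      · push_cast
        rw [hθ]
        nlinarith [h5.1]
      · push_cast
        rw [hθ]
        nlinarith [h5.2]
    · intro x hx z hz hxz
      rw [mem_coe, mem_filter, mem_product, mem_Ico, mem_Ico] at hx hz
      obtain ⟨⟨⟨h1, h2⟩, h3, h4⟩, h5⟩ := hx
      obtain ⟨⟨⟨i1, i2⟩, i3, i4⟩, i5⟩ := hz
      simp only [Prod.mk.injEq] at hxz
      obtain ⟨h6, h7⟩ := hxz
      have hq'z : (0 : ℤ) < q' := by exact_mod_cast hq'0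
      have j1 : 0 ≤ (x.1 - α) / (q' : ℤ) := Int.ediv_nonneg (by linarith) hq'z.le
      have j2 : 0 ≤ (z.1 - α) / (q' : ℤ) := Int.ediv_nonneg (by linarith) hq'z.le
      have j3 : (x.1 - α) / (q' : ℤ) = (z.1 - α) / (q' : ℤ) := by omega
      have j4 : (q' : ℤ) ∣ (x.1 - z.1) * r' := ⟨x.2 - z.2, by linarith⟩
      have j5 : (q' : ℤ) ∣ (x.1 - z.1) := hcop.dvd_of_dvd_mul_right j4
      obtain ⟨c, hc⟩ := j5
      have j6 := Int.emod_add_mul_ediv (x.1 - α) q'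
      have j7 := Int.emod_add_mul_ediv (z.1 - α) q'
      have j8 : (x.1 - α) % (q' : ℤ) = (z.1 - α) % (q' : ℤ) := by
        have : x.1 - α = (z.1 - α) + q' * c := by linarith
        rw [this, Int.add_mul_emod_self_left]
      have j9 : x.1 = z.1 := by
        rw [j3, j8] at j6
        linarith
      have j10 : x.2 = z.2 := by
        rw [j9] at h7
        have : x.2 * (q' : ℤ) = z.2 * q' := by linarith
        exact Int.eq_of_mul_eq_mul_right hq'z.ne' this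
      exact Prod.ext j9 j10
  have hTc : (T.card : ℝ) ≤ 2 * W + 1 := by
    rw [hT, Int.card_Icc]
    have h1 : ((⌊θ + W⌋ + 1 - ⌈θ - W⌉ : ℤ) : ℝ) ≤ 2 * W + 1 := by
      push_cast
      have := Int.floor_le (θ + W)
      have := Int.le_ceil (θ - W)
      linarith
    rcases le_total 0 (⌊θ + W⌋ + 1 - ⌈θ - W⌉) with h | h
    · have h2 : (((⌊θ + W⌋ + 1 - ⌈θ - W⌉).toNat : ℤ) : ℝ) = ((⌊θ + W⌋ + 1 - ⌈θ - W⌉ : ℤ) : ℝ) := by
        rw [Int.toNat_of_nonneg h]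
      rw [← h2] at h1
      exact_mod_cast h1
    · rw [Int.toNat_of_nonpos h]
      simp
      linarith
  calc (((Ico α (α + q) ×ˢ Ico β (β + r)).filter (fun x : ℤ × ℤ =>
      |((x.1 : ℝ) + y) * r' - ((x.2 : ℝ) + y) * q'| < W)).card : ℝ)
      ≤ ((range g ×ˢ T).card : ℝ) := by exact_mod_cast hinj
    _ = g * (T.card : ℝ) := by rw [card_product, card_range]; push_cast; ring
    _ ≤ g * (2 * W + 1) := mul_le_mul_of_nonneg_left hTc (Nat.cast_nonneg _)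

lemma sum_ell_le {q r : ℕ} (hq : 0 < q) (hr : 0 < r) (δ δ' y : ℝ) (hδ : 0 ≤ δ) (hδ' : 0 ≤ δ')
    (α β : ℤ) :
    ∑ a ∈ Ico α (α + q), ∑ b ∈ Ico β (β + r), volume.real (I1 δ q y a ∩ I1 δ' r y b) ≤
      Nat.gcd q r * (2 * (qa r q * δ + qa q r * δ') + 1) * (2 * min (δ / q) (δ' / r)) := by
  classical
  set W : ℝ := qa r q * δ + qa q r * δ' with hW
  have hW0 : 0 ≤ W := by positivity
  have hm : 0 ≤ 2 * min (δ / q) (δ' / r) := by
    have : 0 ≤ min (δ / q) (δ' / r) := le_min (by positivity) (by positivity)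
    linarith
  rw [← Finset.sum_product']
  have h1 : ∀ x ∈ Ico α (α + q) ×ˢ Ico β (β + r), volume.real (I1 δ q y x.1 ∩ I1 δ' r y x.2) ≤
      if |((x.1 : ℝ) + y) * qa r q - ((x.2 : ℝ) + y) * qa q r| < W then
        2 * min (δ / q) (δ' / r) else 0 := by
    intro x _
    split_ifs with h
    · rw [mul_min_of_nonneg _ _ (by norm_num)]
      apply le_min
      · rw [← vol_I1 (y := y) (a := x.1) hδ]
        exact measureReal_mono Set.inter_subset_left vol_I1_ne_top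
      · rw [← vol_I1 (y := y) (a := x.2) hδ']
        exact measureReal_mono Set.inter_subset_right vol_I1_ne_top
    · have h2 : I1 δ q y x.1 ∩ I1 δ' r y x.2 = ∅ := by
        rw [← Set.not_nonempty_iff_eq_empty]
        intro h3
        exact h (meet_I1 hq hr h3)
      rw [h2]
      simp
  refine (Finset.sum_le_sum h1).trans ?_
  rw [← Finset.sum_filter, Finset.sum_const, nsmul_eq_mul]
  exact mul_le_mul_of_nonneg_right (count1 hq hr y W hW0 α β) hm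

/-- the box of the points `x` with `|q x - a - y| < δ` (sup norm) -/
def Box (δ : ℝ) (q : ℕ) (y : ℝ × ℝ) (a : ℤ × ℤ) : Set (ℝ × ℝ) :=
  I1 δ q y.1 a.1 ×ˢ I1 δ q y.2 a.2

lemma mem_Box {δ : ℝ} {q : ℕ} {y : ℝ × ℝ} {a : ℤ × ℤ} {x : ℝ × ℝ} (hq : 0 < q) :
    x ∈ Box δ q y a ↔ ‖(q : ℝ) • x - ((a.1 : ℝ), (a.2 : ℝ)) - y‖ < δ := by
  unfold Box
  rw [Set.mem_prod, mem_I1 hq, mem_I1 hq, Prod.norm_def, max_lt_iff, Real.norm_eq_abs,
    Real.norm_eq_abs]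
  simp

lemma isOpen_Box {δ : ℝ} {q : ℕ} {y : ℝ × ℝ} {a : ℤ × ℤ} : IsOpen (Box δ q y a) :=
  isOpen_Ioo.prod isOpen_Ioo

lemma vol_prod (s t : Set ℝ) : volume.real (s ×ˢ t) = volume.real s * volume.real t := by
  rw [Measure.volume_eq_prod]
  exact measureReal_prod_prod s t

lemma vol_Box {δ : ℝ} {q : ℕ} {y : ℝ × ℝ} {a : ℤ × ℤ} (hδ : 0 ≤ δ) :
    volume.real (Box δ q y a) = 4 * (δ / q) ^ 2 := by
  unfold Box
  rw [vol_prod, vol_I1 hδ, vol_I1 hδ]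
  ring

/-- all the admissible centres -/
noncomputable def full (q : ℕ) (y : ℝ × ℝ) : Finset (ℤ × ℤ) :=
  Ico ⌈-y.1⌉ (⌈-y.1⌉ + q) ×ˢ Ico ⌈-y.2⌉ (⌈-y.2⌉ + q)

/-- the total overlap of two families of boxes -/
noncomputable def VV (ρ : ℕ → ℝ) (y : ℝ × ℝ) (A : ℕ → Finset (ℤ × ℤ)) (q r : ℕ) : ℝ :=
  ∑ a ∈ A q, ∑ b ∈ A r, volume.real (Box (ρ q) q y a ∩ Box (ρ r) r y b)

lemma VV_le_sq {ρ : ℕ → ℝ} {y : ℝ × ℝ} {A : ℕ → Finset (ℤ × ℤ)} {q r : ℕ} (hq : 0 < q) (hr : 0 < r)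
    (hρq : 0 ≤ ρ q) (hρr : 0 ≤ ρ r) (hAq : A q ⊆ full q y) (hAr : A r ⊆ full r y) :
    VV ρ y A q r ≤ (Nat.gcd q r * (2 * (qa r q * ρ q + qa q r * ρ r) + 1) *
      (2 * min (ρ q / q) (ρ r / r))) ^ 2 := by
  unfold VV
  calc ∑ a ∈ A q, ∑ b ∈ A r, volume.real (Box (ρ q) q y a ∩ Box (ρ r) r y b)
      ≤ ∑ a ∈ full q y, ∑ b ∈ full r y, volume.real (Box (ρ q) q y a ∩ Box (ρ r) r y b) := by
        refine (Finset.sum_le_sum (fun a _ => Finset.sum_le_sum_of_subset_of_nonneg hAr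
          (fun _ _ _ => measureReal_nonneg))).trans ?_
        exact Finset.sum_le_sum_of_subset_of_nonneg hAq
          (fun _ _ _ => Finset.sum_nonneg (fun _ _ => measureReal_nonneg))
    _ = (∑ a ∈ Ico ⌈-y.1⌉ (⌈-y.1⌉ + (q : ℤ)), ∑ b ∈ Ico ⌈-y.1⌉ (⌈-y.1⌉ + (r : ℤ)),
          volume.real (I1 (ρ q) q y.1 a ∩ I1 (ρ r) r y.1 b)) *
        (∑ a ∈ Ico ⌈-y.2⌉ (⌈-y.2⌉ + (q : ℤ)), ∑ b ∈ Ico ⌈-y.2⌉ (⌈-y.2⌉ + (r : ℤ)),
          volume.real (I1 (ρ q) q y.2 a ∩ I1 (ρ r) r y.2 b)) := by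
        unfold full Box
        simp only [Set.prod_inter_prod, vol_prod]
        rw [Finset.sum_product, Finset.sum_mul_sum]
        apply Finset.sum_congr rfl
        intro a _
        apply Finset.sum_congr rfl
        intro a' _
        rw [Finset.sum_product, Finset.sum_mul_sum]
    _ ≤ _ := by
        rw [sq]
        apply mul_le_mul (sum_ell_le hq hr _ _ _ hρq hρr _ _) (sum_ell_le hq hr _ _ _ hρq hρr _ _)
        · exact Finset.sum_nonneg (fun _ _ => Finset.sum_nonneg (fun _ _ => measureReal_nonneg))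
        · have : 0 ≤ min (ρ q / q) (ρ r / r) := le_min (by positivity) (by positivity)
          positivity

lemma gcd_min {ρ : ℕ → ℝ} {q r : ℕ} (hq : 0 < q) (hr : 0 < r) :
    (Nat.gcd q r : ℝ) * min (ρ q / q) (ρ r / r) = min (ρ q / qa q r) (ρ r / qa r q) := by
  have e1 : (q : ℝ) = Nat.gcd q r * qa q r := by exact_mod_cast (gcd_mul_qa q r).symm
  have e2 : (r : ℝ) = Nat.gcd q r * qa r q := by exact_mod_cast (gcd_mul_qa' q r).symm
  have ha : (0 : ℝ) < qa q r := by exact_mod_cast qa_pos hq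
  have hb : (0 : ℝ) < qa r q := by exact_mod_cast qa_pos hr
  have hg : (0 : ℝ) < Nat.gcd q r := by exact_mod_cast Nat.gcd_pos_of_pos_left r hq
  rw [mul_min_of_nonneg _ _ hg.le]
  have e3 : (Nat.gcd q r : ℝ) * (ρ q / q) = ρ q / qa q r := by
    have hq0 : (q : ℝ) ≠ 0 := by exact_mod_cast hq.ne'
    rw [mul_div_assoc', div_eq_div_iff hq0 ha.ne']
    linear_combination (-(ρ q)) * e1
  have e4 : (Nat.gcd q r : ℝ) * (ρ r / r) = ρ r / qa r q := by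
    have hr0 : (r : ℝ) ≠ 0 := by exact_mod_cast hr.ne'
    rw [mul_div_assoc', div_eq_div_iff hr0 hb.ne']
    linear_combination (-(ρ r)) * e2
  rw [e3, e4]

lemma VV_le {ρ : ℕ → ℝ} {y : ℝ × ℝ} {A : ℕ → Finset (ℤ × ℤ)} {q r : ℕ} (hq : 0 < q) (hr : 0 < r)
    (hρq : 0 ≤ ρ q) (hρr : 0 ≤ ρ r) (hAq : A q ⊆ full q y) (hAr : A r ⊆ full r y) :
    VV ρ y A q r ≤ 4 * (2 * (qa r q * ρ q + qa q r * ρ r) + 1) ^ 2 * wt ρ q r := by
  refine (VV_le_sq hq hr hρq hρr hAq hAr).trans (le_of_eq ?_)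
  unfold wt
  rw [← gcd_min hq hr]
  ring

/-- the diagonal terms -/
lemma VV_diag {ρ : ℕ → ℝ} {y : ℝ × ℝ} {A : ℕ → Finset (ℤ × ℤ)} {q : ℕ} (hq : 0 < q)
    (hρq : 0 ≤ ρ q) (hρ : ρ q < 1 / 2) (hAq : A q ⊆ full q y) :
    VV ρ y A q q ≤ 36 * ρ q ^ 2 := by
  refine (VV_le hq hq hρq hρq hAq hAq).trans ?_
  have h1 : qa q q = 1 := by
    unfold qa
    rw [Nat.gcd_self, Nat.div_self hq]
  unfold wt
  rw [h1]
  simp only [Nat.cast_one, div_one, one_mul, min_self]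
  have h2 : (2 * (ρ q + ρ q) + 1) ^ 2 ≤ 9 := by nlinarith
  nlinarith [sq_nonneg (ρ q), mul_le_mul_of_nonneg_right h2 (sq_nonneg (ρ q))]

/-- the pairs with many overlaps -/
lemma VV_big {ρ : ℕ → ℝ} {y : ℝ × ℝ} {A : ℕ → Finset (ℤ × ℤ)} {q r : ℕ} (hq : 0 < q) (hr : 0 < r)
    (hρq : 0 ≤ ρ q) (hρr : 0 ≤ ρ r) (hAq : A q ⊆ full q y) (hAr : A r ⊆ full r y)
    (hW : 1 / 2 ≤ max (qa r q * ρ q) (qa q r * ρ r)) :
    VV ρ y A q r ≤ 256 * (ρ q ^ 2 * ρ r ^ 2) := by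
  refine (VV_le hq hr hρq hρr hAq hAr).trans ?_
  have ha : (0 : ℝ) < qa q r := by exact_mod_cast qa_pos hq
  have hb : (0 : ℝ) < qa r q := by exact_mod_cast qa_pos hr
  set M := max (qa r q * ρ q) (qa q r * ρ r) with hM
  have h1 : 2 * (qa r q * ρ q + qa q r * ρ r) + 1 ≤ 8 * M - 2 * (M - 1 / 2) := by
    have := le_max_left (qa r q * ρ q) (qa q r * ρ r)
    have := le_max_right (qa r q * ρ q) (qa q r * ρ r)
    rw [← hM] at *
    linarith
  have h1' : 2 * (qa r q * ρ q + qa q r * ρ r) + 1 ≤ 8 * M := by linarith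
  have h2 : M * min (ρ q / qa q r) (ρ r / qa r q) = ρ q * ρ r := by
    have e1 : ρ q / qa q r = (qa r q * ρ q) / (qa q r * qa r q) := by field_simp
    have e2 : ρ r / qa r q = (qa q r * ρ r) / (qa q r * qa r q) := by field_simp
    rw [e1, e2, min_div_div_right (by positivity), ← mul_div_assoc, hM, max_mul_min]
    field_simp
  unfold wt
  calc 4 * (2 * (qa r q * ρ q + qa q r * ρ r) + 1) ^ 2 * min (ρ q / qa q r) (ρ r / qa r q) ^ 2
      ≤ 4 * (8 * M) ^ 2 * min (ρ q / qa q r) (ρ r / qa r q) ^ 2 := by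
        apply mul_le_mul_of_nonneg_right _ (sq_nonneg _)
        apply mul_le_mul_of_nonneg_left _ (by norm_num)
        exact pow_le_pow_left₀ (by positivity) h1' 2
    _ = 256 * (M * min (ρ q / qa q r) (ρ r / qa r q)) ^ 2 := by ring
    _ = _ := by rw [h2]; ring

/-- the pairs with few overlaps -/
lemma VV_small {ρ : ℕ → ℝ} {y : ℝ × ℝ} {A : ℕ → Finset (ℤ × ℤ)} {q r : ℕ} (hq : 0 < q) (hr : 0 < r)
    (hρq : 0 ≤ ρ q) (hρr : 0 ≤ ρ r) (hAq : A q ⊆ full q y) (hAr : A r ⊆ full r y)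
    (h1 : qa r q * ρ q < 1 / 2) (h2 : qa q r * ρ r < 1 / 2) :
    VV ρ y A q r ≤ 36 * wt ρ q r := by
  refine (VV_le hq hr hρq hρr hAq hAr).trans ?_
  apply mul_le_mul_of_nonneg_right _ (wt_nonneg q r)
  have : (0 : ℝ) ≤ qa r q * ρ q := by positivity
  have : (0 : ℝ) ≤ qa q r * ρ r := by positivity
  have h3 : 2 * (qa r q * ρ q + qa q r * ρ r) + 1 ≤ 3 := by linarith
  have h4 : (0 : ℝ) ≤ 2 * (qa r q * ρ q + qa q r * ρ r) + 1 := by positivity
  nlinarith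

end Pool.Agent.N761.K2
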