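import Mathlib
import Pool.Agent.N761.K2.Pair

/-!
# The families of centres that avoid the overlaps of small ratio
-/

set_option autoImplicit false

namespace Pool.Agent.N761.K2

open Finset MeasureTheory

/-- the twist of a block -/
structure Twist (X₀ : ℕ) (δ₀ : ℝ) (y : ℝ × ℝ) (D : ℕ) (u : ℤ × ℤ) : Prop where
  pos : 0 < D
  cop : ∀ p : ℕ, p.Prime → (p : ℤ) ∣ D → (p : ℤ) ∣ u.1 → (p : ℤ) ∣ u.2 → False
  kill : ∀ n : ℕ, 0 < n → n ≤ X₀ → ∀ t : ℤ × ℤ, |(n : ℝ) * y.1 - t.1| < 2 * X₀ * δ₀ →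
    |(n : ℝ) * y.2 - t.2| < 2 * X₀ * δ₀ → (D : ℤ) * t.1 = n * u.1 ∧ (D : ℤ) * t.2 = n * u.2

lemma twist_trivial (y : ℝ × ℝ) : Twist 0 0 y 1 (0, 0) where
  pos := one_pos
  cop := by
    intro p hp h _ _
    have : p ∣ 1 := by exact_mod_cast h
    exact hp.one_lt.ne' (Nat.dvd_one.1 this)
  kill := by
    intro n h1 h2
    omega

lemma unique_ratio {X₀ : ℕ} {δ₀ : ℝ} (h : 4 * (X₀ : ℝ) ^ 2 * δ₀ ≤ 1) {y : ℝ} {n m : ℕ}
    (hn : 0 < n) (hm : 0 < m) (hnX : n ≤ X₀) (hmX : m ≤ X₀) {s t : ℤ}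
    (h1 : |(n : ℝ) * y - s| < 2 * X₀ * δ₀) (h2 : |(m : ℝ) * y - t| < 2 * X₀ * δ₀) :
    (m : ℤ) * s = n * t := by
  have hn' : (0 : ℝ) < n := by exact_mod_cast hn
  have hm' : (0 : ℝ) < m := by exact_mod_cast hm
  have hnX' : (n : ℝ) ≤ X₀ := by exact_mod_cast hnX
  have hmX' : (m : ℝ) ≤ X₀ := by exact_mod_cast hmX
  have hX : (0 : ℝ) < X₀ := lt_of_lt_of_le hn' hnX'
  have h0 : 0 < 2 * X₀ * δ₀ := lt_of_le_of_lt (abs_nonneg _) h1
  have h3 : |((n : ℝ) * t - m * s)| < 1 := by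
    have e : (n : ℝ) * t - m * s = m * ((n : ℝ) * y - s) - n * ((m : ℝ) * y - t) := by ring
    rw [e]
    calc |(m : ℝ) * ((n : ℝ) * y - s) - n * ((m : ℝ) * y - t)|
        ≤ |(m : ℝ) * ((n : ℝ) * y - s)| + |(n : ℝ) * ((m : ℝ) * y - t)| := abs_sub _ _
      _ = m * |(n : ℝ) * y - s| + n * |(m : ℝ) * y - t| := by
          rw [abs_mul, abs_mul, abs_of_pos hn', abs_of_pos hm']
      _ < m * (2 * X₀ * δ₀) + n * (2 * X₀ * δ₀) :=
          add_lt_add (mul_lt_mul_of_pos_left h1 hm') (mul_lt_mul_of_pos_left h2 hn')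
      _ ≤ X₀ * (2 * X₀ * δ₀) + X₀ * (2 * X₀ * δ₀) :=
          add_le_add (mul_le_mul_of_nonneg_right hmX' h0.le)
            (mul_le_mul_of_nonneg_right hnX' h0.le)
      _ = 4 * (X₀ : ℝ) ^ 2 * δ₀ := by ring
      _ ≤ 1 := h
  have h4 : |(n : ℤ) * t - m * s| < 1 := by exact_mod_cast h3
  rw [Int.abs_lt_one_iff] at h4
  linarith

lemma exists_twist (X₀ : ℕ) (δ₀ : ℝ) (h : 4 * (X₀ : ℝ) ^ 2 * δ₀ ≤ 1) (y : ℝ × ℝ) :
    ∃ (D : ℕ) (u : ℤ × ℤ), Twist X₀ δ₀ y D u := by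
  classical
  by_cases hex : ∃ n : ℕ, 0 < n ∧ n ≤ X₀ ∧ ∃ t : ℤ × ℤ, |(n : ℝ) * y.1 - t.1| < 2 * X₀ * δ₀ ∧
    |(n : ℝ) * y.2 - t.2| < 2 * X₀ * δ₀
  · obtain ⟨n₀, hn₀, hn₀X, t₀, ht1, ht2⟩ := hex
    have hP : ∃ D : ℕ, 0 < D ∧ ∃ u : ℤ × ℤ, (D : ℤ) * t₀.1 = n₀ * u.1 ∧
        (D : ℤ) * t₀.2 = n₀ * u.2 := ⟨n₀, hn₀, t₀, rfl, rfl⟩
    obtain ⟨hD, u, hu1, hu2⟩ := Nat.find_spec hP
    set D := Nat.find hP with hDdef
    have hn₀' : (n₀ : ℤ) ≠ 0 := by exact_mod_cast hn₀.ne'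
    refine ⟨D, u, hD, ?_, ?_⟩
    · intro p hp h1 h2 h3
      have h1' : p ∣ D := by exact_mod_cast h1
      obtain ⟨D', hD'⟩ := h1'
      obtain ⟨u1, hu1'⟩ := h2
      obtain ⟨u2, hu2'⟩ := h3
      have hp0 : (p : ℤ) ≠ 0 := by exact_mod_cast hp.ne_zero
      have hD'0 : 0 < D' := by
        rcases Nat.eq_zero_or_pos D' with h | h
        · rw [h, mul_zero] at hD'
          omega
        · exact h
      have hlt : D' < D := by
        rw [hD']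
        have := hp.one_lt
        nlinarith
      refine Nat.find_min hP hlt ⟨hD'0, (u1, u2), ?_, ?_⟩
      · rw [hD', hu1'] at hu1
        push_cast at hu1
        apply mul_left_cancel₀ hp0
        simp only
        linarith
      · rw [hD', hu2'] at hu2
        push_cast at hu2
        apply mul_left_cancel₀ hp0
        simp only
        linarith
    · intro n hn hnX t h1 h2
      have e1 := unique_ratio h hn hn₀ hnX hn₀X h1 ht1
      have e2 := unique_ratio h hn hn₀ hnX hn₀X h2 ht2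
      constructor
      · apply mul_left_cancel₀ hn₀'
        linear_combination (D : ℤ) * e1 + (n : ℤ) * hu1
      · apply mul_left_cancel₀ hn₀'
        linear_combination (D : ℤ) * e2 + (n : ℤ) * hu2
  · refine ⟨1, (0, 0), one_pos, (twist_trivial y).cop, ?_⟩
    intro n hn hnX t h1 h2
    exact absurd ⟨n, hn, hnX, t, h1, h2⟩ hex

open Classical in
/-- the family of centres -/
noncomputable def fam (y : ℝ × ℝ) (D : ℕ) (u : ℤ × ℤ) (q : ℕ) : Finset (ℤ × ℤ) :=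
  (full q y).filter (fun a => ∀ p : ℕ, p.Prime → p ∣ q → (p : ℤ) ∣ D * a.1 + u.1 →
    ¬ (p : ℤ) ∣ D * a.2 + u.2)

lemma fam_subset (y : ℝ × ℝ) (D : ℕ) (u : ℤ × ℤ) (q : ℕ) : fam y D u q ⊆ full q y := by
  classical
  unfold fam
  exact Finset.filter_subset _ _

lemma mem_fam {y : ℝ × ℝ} {D : ℕ} {u : ℤ × ℤ} {q : ℕ} {a : ℤ × ℤ} :
    a ∈ fam y D u q ↔ a ∈ full q y ∧ ∀ p : ℕ, p.Prime → p ∣ q → (p : ℤ) ∣ D * a.1 + u.1 →
    ¬ (p : ℤ) ∣ D * a.2 + u.2 := by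
  classical
  unfold fam
  rw [mem_filter]

/-- an algebraic identity implies that one of the denominators is trivial -/
lemma one_of_dvd {y : ℝ × ℝ} {D : ℕ} {u : ℤ × ℤ} {q m k : ℕ} (hm : m ∣ q) (hk : Nat.Coprime m k)
    {a b : ℤ × ℤ} (ha : a ∈ fam y D u q) (h1 : ((D : ℤ) * a.1 + u.1) * k = (D * b.1 + u.1) * m)
    (h2 : ((D : ℤ) * a.2 + u.2) * k = (D * b.2 + u.2) * m) : m = 1 := by
  by_contra hm1
  obtain ⟨p, hp, hpm⟩ := Nat.exists_prime_and_dvd hm1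
  have hpm' : (p : ℤ) ∣ m := by exact_mod_cast hpm
  have hpk : IsCoprime (p : ℤ) (k : ℤ) := by
    rw [Nat.isCoprime_iff_coprime]
    exact Nat.Coprime.coprime_dvd_left hpm hk
  have e1 : (p : ℤ) ∣ D * a.1 + u.1 := by
    apply hpk.dvd_of_dvd_mul_right
    rw [h1]
    exact Dvd.dvd.mul_left hpm' _
  have e2 : (p : ℤ) ∣ D * a.2 + u.2 := by
    apply hpk.dvd_of_dvd_mul_right
    rw [h2]
    exact Dvd.dvd.mul_left hpm' _
  exact (mem_fam.1 ha).2 p hp (hpm.trans hm) e1 e2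

lemma twist_rel {X₀ : ℕ} {δ₀ : ℝ} {y : ℝ × ℝ} {D : ℕ} {u : ℤ × ℤ} (H : Twist X₀ δ₀ y D u)
    {m k : ℕ} (hmk : m ≠ k) (hmX : m ≤ X₀) (hkX : k ≤ X₀) {a b : ℤ × ℤ}
    (h1 : |((a.1 : ℝ) + y.1) * k - ((b.1 : ℝ) + y.1) * m| < 2 * X₀ * δ₀)
    (h2 : |((a.2 : ℝ) + y.2) * k - ((b.2 : ℝ) + y.2) * m| < 2 * X₀ * δ₀) :
    ((D : ℤ) * a.1 + u.1) * k = (D * b.1 + u.1) * m ∧
      ((D : ℤ) * a.2 + u.2) * k = (D * b.2 + u.2) * m := by
  rcases lt_or_gt_of_ne hmk with h | h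
  · obtain ⟨n, rfl⟩ : ∃ n, k = m + n := ⟨k - m, by omega⟩
    obtain ⟨i1, i2⟩ := H.kill n (by omega) (by omega)
      (b.1 * m - a.1 * (m + n : ℕ), b.2 * m - a.2 * (m + n : ℕ))
      (by
        refine lt_of_eq_of_lt ?_ h1
        congr 1
        push_cast
        ring)
      (by
        refine lt_of_eq_of_lt ?_ h2
        congr 1
        push_cast
        ring)
    push_cast at i1 i2 ⊢
    constructor <;> linarith
  · obtain ⟨n, rfl⟩ : ∃ n, m = k + n := ⟨m - k, by omega⟩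
    obtain ⟨i1, i2⟩ := H.kill n (by omega) (by omega)
      (a.1 * k - b.1 * (k + n : ℕ), a.2 * k - b.2 * (k + n : ℕ))
      (by
        refine lt_of_eq_of_lt ?_ h1
        rw [← abs_neg]
        congr 1
        push_cast
        ring)
      (by
        refine lt_of_eq_of_lt ?_ h2
        rw [← abs_neg]
        congr 1
        push_cast
        ring)
    push_cast at i1 i2 ⊢
    constructor <;> linarith

/-- boxes with small height of the ratio do not meet -/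
lemma killed {X₀ : ℕ} {δ₀ : ℝ} {y : ℝ × ℝ} {D : ℕ} {u : ℤ × ℤ} (H : Twist X₀ δ₀ y D u)
    {q r : ℕ} (hq : 0 < q) (hr : 0 < r) (hqr : q ≠ r) (hX : max (qa q r) (qa r q) ≤ X₀)
    {δ δ' : ℝ} (hδ : δ ≤ δ₀) (hδ' : δ' ≤ δ₀) (hδ₀ : 0 ≤ δ₀) {a b : ℤ × ℤ} (ha : a ∈ fam y D u q)
    (hb : b ∈ fam y D u r) : Box δ q y a ∩ Box δ' r y b = ∅ := by
  rw [← Set.not_nonempty_iff_eq_empty]
  intro hne
  unfold Box at hne
  rw [Set.prod_inter_prod, Set.prod_nonempty_iff] at hne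
  have m1 := meet_I1 hq hr hne.1
  have m2 := meet_I1 hq hr hne.2
  have ha0 : (0 : ℝ) < qa q r := by exact_mod_cast qa_pos hq
  have hb0 : (0 : ℝ) < qa r q := by exact_mod_cast qa_pos hr
  have hXa : qa q r ≤ X₀ := (le_max_left _ _).trans hX
  have hXb : qa r q ≤ X₀ := (le_max_right _ _).trans hX
  have hXa' : (qa q r : ℝ) ≤ X₀ := by exact_mod_cast hXa
  have hXb' : (qa r q : ℝ) ≤ X₀ := by exact_mod_cast hXb
  have hle : (qa r q : ℝ) * δ + qa q r * δ' ≤ 2 * X₀ * δ₀ := by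
    calc (qa r q : ℝ) * δ + qa q r * δ' ≤ qa r q * δ₀ + qa q r * δ₀ :=
          add_le_add (mul_le_mul_of_nonneg_left hδ hb0.le) (mul_le_mul_of_nonneg_left hδ' ha0.le)
      _ ≤ X₀ * δ₀ + X₀ * δ₀ :=
          add_le_add (mul_le_mul_of_nonneg_right hXb' hδ₀) (mul_le_mul_of_nonneg_right hXa' hδ₀)
      _ = _ := by ring
  have hcop := coprime_qa (r := r) hq
  have hne' : qa q r ≠ qa r q := by
    intro h
    apply hqr
    have h1 := gcd_mul_qa q r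
    have h2 := gcd_mul_qa' q r
    rw [← h] at h2
    exact h1.symm.trans h2
  obtain ⟨i1, i2⟩ := twist_rel H hne' hXa hXb (lt_of_lt_of_le m1 hle) (lt_of_lt_of_le m2 hle)
  have j1 := one_of_dvd (qa_dvd q r) hcop ha i1 i2
  have j2 := one_of_dvd (qa_dvd r q) hcop.symm hb i1.symm i2.symm
  exact hne' (j1.trans j2.symm)

end Pool.Agent.N761.K2
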