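import Mathlib
import Pool.Agent.N761.K2.Kill

/-!
# Counting the centres inside a cell
-/

set_option autoImplicit false

namespace Pool.Agent.N761.K2

open Finset MeasureTheory

lemma sum_inv_sq_le (M : ℕ) (hM : 2 ≤ M) : ∑ n ∈ Icc 2 M, 1 / (n : ℝ) ^ 2 ≤ 3 / 4 - 1 / (M : ℝ) := by
  induction M, hM using Nat.le_induction with
  | base => norm_num
  | succ M hM ih =>
    rw [Finset.sum_Icc_succ_top (by omega)]
    have hM' : (0 : ℝ) < M := by
      have : 0 < M := by omega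
      exact_mod_cast this
    have h1 : 1 / ((M + 1 : ℕ) : ℝ) ^ 2 ≤ 1 / M - 1 / ((M + 1 : ℕ) : ℝ) := by
      push_cast
      rw [div_sub_div _ _ hM'.ne' (by positivity), div_le_div_iff₀ (by positivity) (by positivity)]
      nlinarith
    linarith

lemma sum_primes_le (q : ℕ) : ∑ p ∈ q.primeFactors, 1 / (p : ℝ) ^ 2 ≤ 3 / 4 := by
  rcases lt_or_ge q 2 with h | h
  · have : q.primeFactors = ∅ := by
      interval_cases q <;> simp
    rw [this]
    norm_num
  · calc ∑ p ∈ q.primeFactors, 1 / (p : ℝ) ^ 2 ≤ ∑ n ∈ Icc 2 q, 1 / (n : ℝ) ^ 2 := by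
          apply Finset.sum_le_sum_of_subset_of_nonneg
          · intro p hp
            rw [mem_Icc]
            exact ⟨(Nat.prime_of_mem_primeFactors hp).two_le, Nat.le_of_mem_primeFactors hp⟩
          · intro _ _ _
            positivity
      _ ≤ 3 / 4 - 1 / (q : ℝ) := sum_inv_sq_le q h
      _ ≤ 3 / 4 := by
          have : (0 : ℝ) ≤ 1 / (q : ℝ) := by positivity
          linarith

lemma sq_le_two_pow (n : ℕ) : n ^ 2 ≤ 2 ^ n + 1 := by
  rcases lt_or_ge n 4 with h | h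
  · interval_cases n <;> norm_num
  · have : n ^ 2 ≤ 2 ^ n := by
      induction n, h using Nat.le_induction with
      | base => norm_num
      | succ n hn ih =>
        rw [pow_succ 2 n]
        nlinarith
    omega

lemma omega_sq_le {q : ℕ} (hq : 0 < q) : q.primeFactors.card ^ 2 ≤ 2 * q := by
  have h1 := two_pow_le_divisors hq.ne'
  have h2 := Nat.card_divisors_le_self q
  have h3 := sq_le_two_pow q.primeFactors.card
  omega

open Classical in
lemma count_prime {p D : ℕ} (hp : p.Prime) (hD : ¬ p ∣ D) (u α : ℤ) (L : ℕ) :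
    (((Ico α (α + L)).filter (fun a => (p : ℤ) ∣ D * a + u)).card : ℝ) ≤ L / p + 1 := by
  have hp0 : (0 : ℤ) < p := by exact_mod_cast hp.pos
  have h1 : ((Ico α (α + L)).filter (fun a => (p : ℤ) ∣ D * a + u)).card ≤ (range (L / p + 1)).card := by
    apply Finset.card_le_card_of_injOn (fun a => ((a - α) / (p : ℤ)).toNat)
    · intro a ha
      rw [mem_coe, mem_filter, mem_Ico] at ha
      rw [mem_coe, mem_range]
      have h2 : (a - α) / (p : ℤ) ≤ ((L / p : ℕ) : ℤ) := by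
        push_cast
        exact Int.ediv_le_ediv hp0 (by linarith [ha.1.2])
      show ((a - α) / (p : ℤ)).toNat < L / p + 1
      generalize L / p = k at h2 ⊢
      omega
    · intro a ha b hb hab
      rw [mem_coe, mem_filter, mem_Ico] at ha hb
      have hab' : ((a - α) / (p : ℤ)).toNat = ((b - α) / (p : ℤ)).toNat := hab
      have j1 : 0 ≤ (a - α) / (p : ℤ) := Int.ediv_nonneg (by linarith [ha.1.1]) hp0.le
      have j2 : 0 ≤ (b - α) / (p : ℤ) := Int.ediv_nonneg (by linarith [hb.1.1]) hp0.le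
      have j3 : (a - α) / (p : ℤ) = (b - α) / (p : ℤ) := by omega
      have hcop : IsCoprime (p : ℤ) (D : ℤ) := by
        rw [Nat.isCoprime_iff_coprime]
        exact (Nat.Prime.coprime_iff_not_dvd hp).2 hD
      have j4 : (p : ℤ) ∣ (D : ℤ) * (a - b) := by
        have := dvd_sub ha.2 hb.2
        have e : (D : ℤ) * a + u - (D * b + u) = D * (a - b) := by ring
        rwa [e] at this
      obtain ⟨c, hc⟩ := hcop.dvd_of_dvd_mul_left j4
      have j6 := Int.emod_add_mul_ediv (a - α) p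
      have j7 := Int.emod_add_mul_ediv (b - α) p
      have j8 : (a - α) % (p : ℤ) = (b - α) % (p : ℤ) := by
        have : a - α = (b - α) + p * c := by linarith
        rw [this, Int.add_mul_emod_self_left]
      rw [j3, j8] at j6
      linarith
  rw [card_range] at h1
  calc (((Ico α (α + L)).filter (fun a => (p : ℤ) ∣ D * a + u)).card : ℝ)
      ≤ ((L / p + 1 : ℕ) : ℝ) := by exact_mod_cast h1
    _ ≤ L / p + 1 := by
        push_cast
        have := Nat.cast_div_le (α := ℝ) (m := L) (n := p)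
        linarith

open Classical in
lemma count_square {D q : ℕ} (hq : 0 < q) {u : ℤ × ℤ}
    (hcop : ∀ p : ℕ, p.Prime → (p : ℤ) ∣ D → (p : ℤ) ∣ u.1 → (p : ℤ) ∣ u.2 → False)
    (α β : ℤ) (L : ℕ) :
    (L : ℝ) ^ 2 / 4 - (L + 1) * q.primeFactors.card ≤
      (((Ico α (α + L) ×ˢ Ico β (β + L)).filter (fun a : ℤ × ℤ => ∀ p : ℕ, p.Prime → p ∣ q →
        (p : ℤ) ∣ D * a.1 + u.1 → ¬ (p : ℤ) ∣ D * a.2 + u.2)).card : ℝ) := by
  set T := Ico α (α + (L : ℤ)) ×ˢ Ico β (β + (L : ℤ)) with hT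
  set bad : ℕ → Finset (ℤ × ℤ) := fun p => T.filter (fun a => (p : ℤ) ∣ D * a.1 + u.1 ∧
    (p : ℤ) ∣ D * a.2 + u.2) with hbad
  have hTc : (T.card : ℝ) = (L : ℝ) ^ 2 := by
    rw [hT, card_product, Int.card_Ico, Int.card_Ico]
    simp
    ring
  have hbadc : ∀ p ∈ q.primeFactors, ((bad p).card : ℝ) ≤ (L / p + 1) ^ 2 := by
    intro p hp
    have hp' := Nat.prime_of_mem_primeFactors hp
    by_cases hpD : p ∣ D
    · have : bad p = ∅ := by
        rw [Finset.eq_empty_iff_forall_notMem]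
        intro a ha
        rw [hbad] at ha
        simp only [mem_filter] at ha
        have hpD' : (p : ℤ) ∣ D := by exact_mod_cast hpD
        exact hcop p hp' hpD' ((dvd_add_right (Dvd.dvd.mul_right hpD' _)).1 ha.2.1)
          ((dvd_add_right (Dvd.dvd.mul_right hpD' _)).1 ha.2.2)
      rw [this]
      simp
      positivity
    · have h1 := count_prime hp' hpD u.1 α L
      have h2 := count_prime hp' hpD u.2 β L
      have h3 : bad p = (Ico α (α + (L : ℤ))).filter (fun a => (p : ℤ) ∣ D * a + u.1) ×ˢ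
          (Ico β (β + (L : ℤ))).filter (fun a => (p : ℤ) ∣ D * a + u.2) := by
        rw [hbad, hT]
        ext a
        simp only [mem_filter, mem_product]
        tauto
      rw [h3, card_product, sq]
      push_cast
      exact mul_le_mul h1 h2 (Nat.cast_nonneg _) (by positivity)
  have hsub : T ⊆ (T.filter (fun a : ℤ × ℤ => ∀ p : ℕ, p.Prime → p ∣ q →
        (p : ℤ) ∣ D * a.1 + u.1 → ¬ (p : ℤ) ∣ D * a.2 + u.2)) ∪ q.primeFactors.biUnion bad := by
    intro a ha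
    rw [mem_union, mem_filter, mem_biUnion]
    by_cases h : ∀ p : ℕ, p.Prime → p ∣ q → (p : ℤ) ∣ D * a.1 + u.1 → ¬ (p : ℤ) ∣ D * a.2 + u.2
    · exact Or.inl ⟨ha, h⟩
    · right
      push Not at h
      obtain ⟨p, h1, h2, h3, h4⟩ := h
      exact ⟨p, Nat.mem_primeFactors.2 ⟨h1, h2, hq.ne'⟩, mem_filter.2 ⟨ha, h3, h4⟩⟩
  have h1 : (T.card : ℝ) ≤ ((T.filter (fun a : ℤ × ℤ => ∀ p : ℕ, p.Prime → p ∣ q →
        (p : ℤ) ∣ D * a.1 + u.1 → ¬ (p : ℤ) ∣ D * a.2 + u.2)).card : ℝ) +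
        ∑ p ∈ q.primeFactors, ((bad p).card : ℝ) := by
    exact_mod_cast (Finset.card_le_card hsub).trans ((Finset.card_union_le _ _).trans
      (Nat.add_le_add_left Finset.card_biUnion_le _))
  have h2 : ∑ p ∈ q.primeFactors, ((bad p).card : ℝ) ≤
      3 / 4 * (L : ℝ) ^ 2 + (L + 1) * q.primeFactors.card := by
    calc ∑ p ∈ q.primeFactors, ((bad p).card : ℝ)
        ≤ ∑ p ∈ q.primeFactors, ((L : ℝ) ^ 2 * (1 / (p : ℝ) ^ 2) + (L + 1)) := by
          apply Finset.sum_le_sum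
          intro p hp
          refine (hbadc p hp).trans ?_
          have hp2 : (2 : ℝ) ≤ p := by exact_mod_cast (Nat.prime_of_mem_primeFactors hp).two_le
          have h3 : (L : ℝ) / p ≤ L / 2 := by
            apply div_le_div_of_nonneg_left (Nat.cast_nonneg L) (by norm_num) hp2
          have h4 : ((L : ℝ) / p + 1) ^ 2 = (L : ℝ) ^ 2 * (1 / (p : ℝ) ^ 2) + 2 * (L / p) + 1 := by
            ring
          rw [h4]
          linarith
      _ = (L : ℝ) ^ 2 * ∑ p ∈ q.primeFactors, 1 / (p : ℝ) ^ 2 + (L + 1) * q.primeFactors.card := by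
          rw [Finset.sum_add_distrib, ← Finset.mul_sum, Finset.sum_const, nsmul_eq_mul]
          ring
      _ ≤ (L : ℝ) ^ 2 * (3 / 4) + (L + 1) * q.primeFactors.card := by
          have := mul_le_mul_of_nonneg_left (sum_primes_le q) (sq_nonneg (L : ℝ))
          linarith
      _ = _ := by ring
  rw [hTc] at h1
  linarith

/-- the cell of the grid of mesh `1 / N` -/
def cell (N i j : ℕ) : Set (ℝ × ℝ) :=
  Set.Ico ((i : ℝ) / N) (((i : ℝ) + 1) / N) ×ˢ Set.Ico ((j : ℝ) / N) (((j : ℝ) + 1) / N)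

lemma I1_sub_aux {N i q : ℕ} (hN : 0 < N) (hi : i < N) (hq : 0 < q) {δ y : ℝ} (hδ : 0 < δ)
    (hδ1 : δ ≤ 1 / 2) (hL : 2 ≤ q / N) {a : ℤ}
    (h1 : ⌈(q : ℝ) * i / N - y + δ⌉ ≤ a)
    (h2 : a < ⌈(q : ℝ) * i / N - y + δ⌉ + ((q / N - 2 : ℕ) : ℤ)) :
    a ∈ Ico ⌈-y⌉ (⌈-y⌉ + (q : ℤ)) ∧
      I1 δ q y a ⊆ Set.Ico ((i : ℝ) / N) (((i : ℝ) + 1) / N) := by
  have hN' : (0 : ℝ) < N := by exact_mod_cast hN
  have hq' : (0 : ℝ) < q := by exact_mod_cast hq
  have hiN : (i : ℝ) + 1 ≤ N := by exact_mod_cast hi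
  have e1 : (q : ℝ) * i / N - y + δ ≤ a := Int.ceil_le.1 h1
  have e2 : ((q / N - 2 : ℕ) : ℝ) ≤ (q : ℝ) / N - 2 := by
    rw [Nat.cast_sub hL]
    have := Nat.cast_div_le (α := ℝ) (m := q) (n := N)
    push_cast
    linarith
  have e3 : (a : ℝ) ≤ (q : ℝ) * (i + 1) / N - y - δ := by
    have h3 : a + 1 ≤ ⌈(q : ℝ) * i / N - y + δ⌉ + ((q / N - 2 : ℕ) : ℤ) := h2
    have h4 : (a : ℝ) + 1 ≤ (⌈(q : ℝ) * i / N - y + δ⌉ : ℝ) + ((q / N - 2 : ℕ) : ℝ) := by
      exact_mod_cast h3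
    have h5 := Int.ceil_lt_add_one ((q : ℝ) * i / N - y + δ)
    have h6 : (q : ℝ) * (i + 1) / N = (q : ℝ) * i / N + q / N := by ring
    rw [h6]
    linarith
  have e4 : (0 : ℝ) ≤ (q : ℝ) * i / N := by positivity
  have e5 : (q : ℝ) * (i + 1) / N ≤ q := by
    rw [div_le_iff₀ hN']
    exact mul_le_mul_of_nonneg_left hiN hq'.le
  constructor
  · rw [mem_Ico, Int.ceil_le]
    constructor
    · linarith
    · have h3 : (a : ℝ) < (⌈-y⌉ : ℝ) + q := by
        have := Int.le_ceil (-y)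
        linarith
      exact_mod_cast h3
  · unfold I1
    intro x hx
    rw [Set.mem_Ioo] at hx
    rw [Set.mem_Ico]
    constructor
    · refine le_trans ?_ hx.1.le
      rw [div_le_div_iff₀ hN' hq']
      have : (q : ℝ) * i ≤ (a + y - δ) * N := by
        rw [← div_le_iff₀ hN']
        linarith
      linarith
    · refine lt_of_lt_of_le hx.2 ?_
      rw [div_le_div_iff₀ hq' hN']
      have : (a + y + δ) * N ≤ (q : ℝ) * (i + 1) := by
        rw [← le_div_iff₀ hN']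
        linarith
      linarith

open Classical in
lemma count_cell {N i j q : ℕ} (hN : 0 < N) (hi : i < N) (hj : j < N) (hqN : 8192 * N ^ 2 ≤ q)
    {δ : ℝ} {y : ℝ × ℝ} (hδ : 0 < δ) (hδ1 : δ ≤ 1 / 2) {D : ℕ} {u : ℤ × ℤ}
    (hcop : ∀ p : ℕ, p.Prime → (p : ℤ) ∣ D → (p : ℤ) ∣ u.1 → (p : ℤ) ∣ u.2 → False) :
    ((q : ℝ) / N) ^ 2 / 8 ≤ (((fam y D u q).filter (fun a => Box δ q y a ⊆ cell N i j)).card : ℝ) := by
  have hN' : (1 : ℝ) ≤ N := by exact_mod_cast hN
  have hq : 0 < q := by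
    have : 0 < N ^ 2 := by positivity
    omega
  have hq' : (0 : ℝ) < q := by exact_mod_cast hq
  have hqN' : 8192 * (N : ℝ) ^ 2 ≤ q := by exact_mod_cast hqN
  have hz : 8192 ≤ (q : ℝ) / N := by
    rw [le_div_iff₀ (by linarith)]
    nlinarith
  have hz2 : 8192 ≤ q / N := by
    rw [Nat.le_div_iff_mul_le hN]
    nlinarith
  set L := q / N - 2 with hL
  have hLlow : (q : ℝ) / N - 3 ≤ L := by
    rw [hL, Nat.cast_sub (by omega)]
    have h1 : (q : ℝ) / N < ((q / N : ℕ) : ℝ) + 1 := by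
      rw [div_lt_iff₀ (by linarith)]
      have := Nat.lt_div_mul_add hN (a := q)
      have h2 : q < (q / N + 1) * N := by
        rw [add_mul, one_mul]
        exact this
      exact_mod_cast h2
    push_cast
    linarith
  have hLup : (L : ℝ) ≤ (q : ℝ) / N - 2 := by
    rw [hL, Nat.cast_sub (by omega)]
    have := Nat.cast_div_le (α := ℝ) (m := q) (n := N)
    push_cast
    linarith
  have hw : 64 * (q.primeFactors.card : ℝ) ≤ (q : ℝ) / N := by
    rw [le_div_iff₀ (by linarith)]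
    have h1 : ((q.primeFactors.card : ℝ)) ^ 2 ≤ 2 * q := by exact_mod_cast omega_sq_le hq
    apply le_of_sq_le_sq _ hq'.le
    calc (64 * (q.primeFactors.card : ℝ) * N) ^ 2 = 4096 * (N : ℝ) ^ 2 * (q.primeFactors.card : ℝ) ^ 2 := by
          ring
      _ ≤ 4096 * (N : ℝ) ^ 2 * (2 * q) := mul_le_mul_of_nonneg_left h1 (by positivity)
      _ = 8192 * (N : ℝ) ^ 2 * q := by ring
      _ ≤ q * q := mul_le_mul_of_nonneg_right hqN' hq'.le
      _ = (q : ℝ) ^ 2 := by ring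
  have hsq := count_square hq hcop ⌈(q : ℝ) * i / N - y.1 + δ⌉ ⌈(q : ℝ) * j / N - y.2 + δ⌉ L
  have hmain : ((q : ℝ) / N) ^ 2 / 8 ≤ (L : ℝ) ^ 2 / 4 - (L + 1) * q.primeFactors.card := by
    set z := (q : ℝ) / N with hz'
    set ω : ℝ := (q.primeFactors.card : ℝ) with hω
    have hω0 : 0 ≤ ω := Nat.cast_nonneg _
    have h1 : (z - 3) ^ 2 ≤ (L : ℝ) ^ 2 := pow_le_pow_left₀ (by linarith) hLlow 2
    have h2 : ((L : ℝ) + 1) * ω ≤ z * (z / 64) := by
      apply mul_le_mul (by linarith) (by linarith) hω0 (by linarith)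
    nlinarith
  refine hmain.trans (hsq.trans ?_)
  have hle : ((Ico ⌈(q : ℝ) * i / N - y.1 + δ⌉ (⌈(q : ℝ) * i / N - y.1 + δ⌉ + (L : ℤ)) ×ˢ
      Ico ⌈(q : ℝ) * j / N - y.2 + δ⌉ (⌈(q : ℝ) * j / N - y.2 + δ⌉ + (L : ℤ))).filter
      (fun a : ℤ × ℤ => ∀ p : ℕ, p.Prime → p ∣ q →
        (p : ℤ) ∣ D * a.1 + u.1 → ¬ (p : ℤ) ∣ D * a.2 + u.2)).card ≤
      ((fam y D u q).filter (fun a => Box δ q y a ⊆ cell N i j)).card := by
    apply Finset.card_le_card
    intro a ha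
    rw [mem_filter, mem_product, mem_Ico, mem_Ico] at ha
    obtain ⟨⟨⟨h1, h2⟩, h3, h4⟩, h5⟩ := ha
    obtain ⟨i1, i2⟩ := I1_sub_aux (y := y.1) hN hi hq hδ hδ1 (by omega) h1 h2
    obtain ⟨i3, i4⟩ := I1_sub_aux (y := y.2) hN hj hq hδ hδ1 (by omega) h3 h4
    rw [mem_filter, mem_fam]
    refine ⟨⟨?_, h5⟩, ?_⟩
    · unfold full
      rw [mem_product]
      exact ⟨i1, i3⟩
    · unfold Box cell
      exact Set.prod_mono i2 i4
  exact_mod_cast hle

end Pool.Agent.N761.K2
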