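import Mathlib
import Pool.Agent.N761.K2.Count

/-!
# A second moment criterion with lower bounds on the cells only
-/

set_option autoImplicit false

namespace Pool.Agent.N761.K2

open MeasureTheory

lemma floor_of_mem_cell {N i j : ℕ} (hN : 0 < N) {x : ℝ × ℝ} (hx : x ∈ cell N i j) :
    ⌊(N : ℝ) * x.1⌋ = i ∧ ⌊(N : ℝ) * x.2⌋ = j := by
  have hN' : (0 : ℝ) < N := by exact_mod_cast hN
  unfold cell at hx
  rw [Set.mem_prod, Set.mem_Ico, Set.mem_Ico, div_le_iff₀ hN', lt_div_iff₀ hN', div_le_iff₀ hN',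
    lt_div_iff₀ hN'] at hx
  obtain ⟨⟨h1, h2⟩, h3, h4⟩ := hx
  constructor
  · rw [Int.floor_eq_iff]
    constructor
    · push_cast; linarith
    · push_cast; linarith
  · rw [Int.floor_eq_iff]
    constructor
    · push_cast; linarith
    · push_cast; linarith

lemma cell_disjoint {N : ℕ} (hN : 0 < N) {p p' : ℕ × ℕ} (h : p ≠ p') :
    Disjoint (cell N p.1 p.2) (cell N p'.1 p'.2) := by
  rw [Set.disjoint_left]
  intro x hx hx'
  obtain ⟨h1, h2⟩ := floor_of_mem_cell hN hx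
  obtain ⟨h3, h4⟩ := floor_of_mem_cell hN hx'
  apply h
  rw [h1] at h3
  rw [h2] at h4
  exact Prod.ext (by exact_mod_cast h3) (by exact_mod_cast h4)

lemma measurableSet_cell (N i j : ℕ) : MeasurableSet (cell N i j) :=
  measurableSet_Ico.prod measurableSet_Ico

lemma vol_cell {N : ℕ} (hN : 0 < N) (i j : ℕ) : volume.real (cell N i j) = 1 / (N : ℝ) ^ 2 := by
  have hN' : (0 : ℝ) < N := by exact_mod_cast hN
  have h : ∀ k : ℕ, (k : ℝ) / N ≤ ((k : ℝ) + 1) / N := fun k => by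
    apply div_le_div_of_nonneg_right _ hN'.le
    linarith
  unfold cell
  rw [vol_prod, Real.volume_real_Ico_of_le (h i), Real.volume_real_Ico_of_le (h j)]
  field_simp
  ring

lemma mem_some_cell {N : ℕ} (hN : 0 < N) {x : ℝ × ℝ} (hx : x ∈ Set.Ioo (0 : ℝ) 1 ×ˢ Set.Ioo (0 : ℝ) 1) :
    ∃ i j : ℕ, i < N ∧ j < N ∧ x ∈ cell N i j := by
  have hN' : (0 : ℝ) < N := by exact_mod_cast hN
  obtain ⟨⟨h1, h2⟩, h3, h4⟩ := hx
  have key : ∀ z : ℝ, 0 < z → z < 1 → ∃ i : ℕ, i < N ∧ z ∈ Set.Ico ((i : ℝ) / N) (((i : ℝ) + 1) / N) := by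
    intro z hz0 hz1
    refine ⟨⌊(N : ℝ) * z⌋₊, ?_, ?_⟩
    · rw [Nat.floor_lt (by positivity)]
      nlinarith
    · rw [Set.mem_Ico, div_le_iff₀ hN', lt_div_iff₀ hN']
      constructor
      · have := Nat.floor_le (show 0 ≤ (N : ℝ) * z by positivity)
        linarith
      · have := Nat.lt_floor_add_one ((N : ℝ) * z)
        linarith
  obtain ⟨i, hi, hi'⟩ := key x.1 h1 h2
  obtain ⟨j, hj, hj'⟩ := key x.2 h3 h4
  exact ⟨i, j, hi, hj, hi', hj'⟩

lemma dist_cell {N i j : ℕ} (hN : 0 < N) {x z : ℝ × ℝ} (hx : x ∈ cell N i j) (hz : z ∈ cell N i j) :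
    dist x z < 1 / N := by
  have hN' : (0 : ℝ) < N := by exact_mod_cast hN
  unfold cell at hx hz
  obtain ⟨⟨h1, h2⟩, h3, h4⟩ := hx
  obtain ⟨⟨i1, i2⟩, i3, i4⟩ := hz
  have e : ∀ k : ℕ, ((k : ℝ) + 1) / N = k / N + 1 / N := fun k => by ring
  rw [e] at h2 h4 i2 i4
  rw [Prod.dist_eq, max_lt_iff, Real.dist_eq, Real.dist_eq, abs_lt, abs_lt]
  refine ⟨⟨?_, ?_⟩, ?_, ?_⟩ <;> linarith

open Classical in
theorem dual (G : Set (ℝ × ℝ)) (hG : MeasurableSet G)
    (hGs : G ⊆ Set.Ioo (0 : ℝ) 1 ×ˢ Set.Ioo (0 : ℝ) 1) (C c₁ : ℝ) (hc : 0 < c₁)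
    (h : ∀ N : ℕ, 0 < N → ∃ f : ℝ × ℝ → ℝ, Integrable f ∧ Integrable (fun x => f x ^ 2) ∧
      (∀ x, 0 ≤ f x) ∧ (∀ x ∈ G, f x = 0) ∧ ∫ x, f x ^ 2 ≤ C ∧
      ∀ i j : ℕ, i < N → j < N → c₁ / (N : ℝ) ^ 2 ≤ ∫ x in cell N i j, f x) :
    volume G = 0 := by
  by_contra hne
  have hGfin : volume G ≠ ⊤ := by
    apply ne_top_of_le_ne_top _ (measure_mono hGs)
    rw [Measure.volume_eq_prod, Measure.prod_prod]
    simp
  set m := volume.real G with hm
  have hm0 : 0 < m := by
    rw [hm, measureReal_def]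
    exact ENNReal.toReal_pos hne hGfin
  have hC : 0 ≤ C := by
    obtain ⟨f, _, _, _, _, h1, _⟩ := h 1 one_pos
    exact le_trans (integral_nonneg (fun _ => sq_nonneg _)) h1
  set s := c₁ * m / (2 * (1 + C)) with hs
  have hs0 : 0 < s := by positivity
  obtain ⟨O, hGO, hO, hOfin, hOG⟩ := hG.exists_isOpen_sdiff_lt hGfin
    (ε := ENNReal.ofReal (s ^ 2)) (by
      rw [Ne, ENNReal.ofReal_eq_zero, not_le]
      positivity)
  obtain ⟨K, hKG, hK, hKm⟩ := hG.exists_lt_isCompact_of_ne_top hGfin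
    (r := ENNReal.ofReal (m / 2)) (by
      rw [ENNReal.ofReal_lt_iff_lt_toReal (by positivity) hGfin]
      rw [← measureReal_def, ← hm]
      linarith)
  have hKm' : m / 2 < volume.real K := by
    rw [measureReal_def]
    exact (ENNReal.ofReal_lt_iff_lt_toReal (by positivity) hK.measure_lt_top.ne).1 hKm
  obtain ⟨η, hη, hηO⟩ := hK.exists_thickening_subset_open hO (hKG.trans hGO)
  obtain ⟨n, hn⟩ := exists_nat_one_div_lt hη
  set N := n + 1 with hNdef
  have hN : 0 < N := Nat.succ_pos n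
  have hN' : (0 : ℝ) < N := by exact_mod_cast hN
  have hnN : 1 / (N : ℝ) < η := by
    rw [hNdef]; push_cast; exact hn
  obtain ⟨f, hf1, hf2, hf3, hf4, hf5, hf6⟩ := h N hN
  set J := (Finset.range N ×ˢ Finset.range N).filter (fun p => (cell N p.1 p.2 ∩ K).Nonempty) with hJ
  set U : Set (ℝ × ℝ) := ⋃ p ∈ J, cell N p.1 p.2 with hU
  have hKU : K ⊆ U := by
    intro x hx
    obtain ⟨i, j, hi, hj, hij⟩ := mem_some_cell hN (hGs (hKG hx))
    rw [hU]
    simp only [Set.mem_iUnion]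
    refine ⟨(i, j), ?_, hij⟩
    rw [hJ, Finset.mem_filter, Finset.mem_product, Finset.mem_range, Finset.mem_range]
    exact ⟨⟨hi, hj⟩, x, hij, hx⟩
  have hUO : U ⊆ O := by
    intro x hx
    rw [hU] at hx
    simp only [Set.mem_iUnion] at hx
    obtain ⟨p, hp, hxp⟩ := hx
    rw [hJ, Finset.mem_filter] at hp
    obtain ⟨_, z, hz, hzK⟩ := hp
    apply hηO
    rw [Metric.mem_thickening_iff]
    exact ⟨z, hzK, (dist_cell hN hxp hz).trans hnN⟩
  have hUm : MeasurableSet U := by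
    rw [hU]
    exact Finset.measurableSet_biUnion _ (fun p _ => measurableSet_cell _ _ _)
  have hUfin : volume U ≠ ⊤ := ne_top_of_le_ne_top hOfin.ne (measure_mono hUO)
  have hvolK : volume.real K ≤ J.card / (N : ℝ) ^ 2 := by
    calc volume.real K ≤ volume.real U := measureReal_mono hKU hUfin
      _ ≤ ∑ p ∈ J, volume.real (cell N p.1 p.2) := measureReal_biUnion_finset_le _ _
      _ = J.card / (N : ℝ) ^ 2 := by
          simp only [vol_cell hN, Finset.sum_const, nsmul_eq_mul]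
          ring
  have hint : c₁ * (J.card / (N : ℝ) ^ 2) ≤ ∫ x in U, f x := by
    rw [hU, integral_biUnion_finset _ (fun p _ => measurableSet_cell _ _ _)
      (fun p _ p' _ hpp' => cell_disjoint hN hpp') (fun p _ => hf1.integrableOn)]
    calc c₁ * (J.card / (N : ℝ) ^ 2) = ∑ p ∈ J, c₁ / (N : ℝ) ^ 2 := by
          rw [Finset.sum_const, nsmul_eq_mul]
          ring
      _ ≤ _ := by
          apply Finset.sum_le_sum
          intro p hp
          rw [hJ, Finset.mem_filter, Finset.mem_product, Finset.mem_range, Finset.mem_range] at hp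
          exact hf6 _ _ hp.1.1 hp.1.2
  have hUG : ∫ x in U, f x = ∫ x in U \ G, f x := by
    rw [← integral_inter_add_sdiff hG hf1.integrableOn]
    have : ∫ x in U ∩ G, f x = 0 := by
      rw [setIntegral_eq_zero_of_forall_eq_zero]
      intro x hx
      exact hf4 x hx.2
    rw [this, zero_add]
  have hUGfin : volume (U \ G) ≠ ⊤ := ne_top_of_le_ne_top hUfin (measure_mono Set.sdiff_subset)
  have hvolUG : volume.real (U \ G) ≤ s ^ 2 := by
    rw [measureReal_def]
    apply ENNReal.toReal_le_of_le_ofReal (by positivity)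
    exact (measure_mono (Set.sdiff_subset_sdiff_left hUO)).trans hOG.le
  have hle : ∫ x in U \ G, f x ≤ ∫ x in U \ G, (1 / (2 * s) + s / 2 * f x ^ 2) := by
    apply setIntegral_mono_on hf1.integrableOn _ (hUm.diff hG)
    · intro x _
      have h1 : 0 ≤ (1 - s * f x) ^ 2 := sq_nonneg _
      have h2 : 1 / (2 * s) + s / 2 * f x ^ 2 - f x = (1 - s * f x) ^ 2 / (2 * s) := by
        field_simp
        ring
      have h3 : 0 ≤ (1 - s * f x) ^ 2 / (2 * s) := by positivity
      linarith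
    · apply IntegrableOn.add
      · exact integrableOn_const hUGfin
      · exact (hf2.const_mul _).integrableOn
  have hle2 : ∫ x in U \ G, (1 / (2 * s) + s / 2 * f x ^ 2) ≤ 1 / (2 * s) * s ^ 2 + s / 2 * C := by
    have hI1 : Integrable (fun _ : ℝ × ℝ => 1 / (2 * s)) (volume.restrict (U \ G)) :=
      integrableOn_const hUGfin
    have hI2 : Integrable (fun x : ℝ × ℝ => s / 2 * f x ^ 2) (volume.restrict (U \ G)) :=
      (hf2.const_mul _).integrableOn
    rw [integral_add hI1 hI2, setIntegral_const, integral_const_mul]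
    apply add_le_add
    · rw [smul_eq_mul, mul_comm]
      exact mul_le_mul_of_nonneg_left hvolUG (by positivity)
    · apply mul_le_mul_of_nonneg_left _ (by positivity)
      refine le_trans ?_ hf5
      exact setIntegral_le_integral hf2 (Filter.Eventually.of_forall (fun _ => sq_nonneg _))
  have hfin : 1 / (2 * s) * s ^ 2 + s / 2 * C = c₁ * m / 4 := by
    have : 1 / (2 * s) * s ^ 2 + s / 2 * C = s * (1 + C) / 2 := by
      field_simp
    rw [this, hs]
    field_simp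
    ring
  have : c₁ * (m / 2) < c₁ * (J.card / (N : ℝ) ^ 2) :=
    mul_lt_mul_of_pos_left (lt_of_lt_of_le hKm' hvolK) hc
  have : 0 < c₁ * m := by positivity
  linarith

end Pool.Agent.N761.K2
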