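import Mathlib
import Pool.Agent.N761.K2.Dual

/-!
# The counting function of the boxes and its moments
-/

set_option autoImplicit false

namespace Pool.Agent.N761.K2

open MeasureTheory

/-- the counting function of the boxes -/
noncomputable def ff (S : Finset ℕ) (ρ : ℕ → ℝ) (y : ℝ × ℝ) (A : ℕ → Finset (ℤ × ℤ)) (x : ℝ × ℝ) : ℝ :=
  ∑ q ∈ S, ∑ a ∈ A q, (Box (ρ q) q y a).indicator (1 : ℝ × ℝ → ℝ) x

lemma measurableSet_Box {δ : ℝ} {q : ℕ} {y : ℝ × ℝ} {a : ℤ × ℤ} : MeasurableSet (Box δ q y a) :=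
  isOpen_Box.measurableSet

lemma vol_Box_ne_top {δ : ℝ} {q : ℕ} {y : ℝ × ℝ} {a : ℤ × ℤ} : volume (Box δ q y a) ≠ ⊤ := by
  unfold Box
  rw [Measure.volume_eq_prod, Measure.prod_prod]
  exact ENNReal.mul_ne_top vol_I1_ne_top vol_I1_ne_top

lemma integrable_ind {s : Set (ℝ × ℝ)} (hs : MeasurableSet s) (h : volume s ≠ ⊤) :
    Integrable (s.indicator (1 : ℝ × ℝ → ℝ)) := by
  rw [integrable_indicator_iff hs]
  exact integrableOn_const h

lemma ff_nonneg (S : Finset ℕ) (ρ : ℕ → ℝ) (y : ℝ × ℝ) (A : ℕ → Finset (ℤ × ℤ)) (x : ℝ × ℝ) :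
    0 ≤ ff S ρ y A x := by
  unfold ff
  apply Finset.sum_nonneg
  intro q _
  apply Finset.sum_nonneg
  intro a _
  apply Set.indicator_nonneg
  intro _ _
  exact zero_le_one

lemma integrable_ff (S : Finset ℕ) (ρ : ℕ → ℝ) (y : ℝ × ℝ) (A : ℕ → Finset (ℤ × ℤ)) :
    Integrable (ff S ρ y A) := by
  unfold ff
  apply integrable_finsetSum
  intro q _
  apply integrable_finsetSum
  intro a _
  exact integrable_ind measurableSet_Box vol_Box_ne_top

lemma ind_mul (s t : Set (ℝ × ℝ)) (x : ℝ × ℝ) :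
    s.indicator (1 : ℝ × ℝ → ℝ) x * t.indicator (1 : ℝ × ℝ → ℝ) x =
      (s ∩ t).indicator (1 : ℝ × ℝ → ℝ) x := by
  by_cases h1 : x ∈ s <;> by_cases h2 : x ∈ t <;> simp [h1, h2]

lemma ff_sq (S : Finset ℕ) (ρ : ℕ → ℝ) (y : ℝ × ℝ) (A : ℕ → Finset (ℤ × ℤ)) (x : ℝ × ℝ) :
    ff S ρ y A x ^ 2 = ∑ q ∈ S, ∑ r ∈ S, ∑ a ∈ A q, ∑ b ∈ A r,
      (Box (ρ q) q y a ∩ Box (ρ r) r y b).indicator (1 : ℝ × ℝ → ℝ) x := by
  unfold ff
  rw [sq, Finset.sum_mul_sum]
  apply Finset.sum_congr rfl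
  intro q _
  apply Finset.sum_congr rfl
  intro r _
  rw [Finset.sum_mul_sum]
  apply Finset.sum_congr rfl
  intro a _
  apply Finset.sum_congr rfl
  intro b _
  exact ind_mul _ _ _

lemma integrable_inter {δ δ' : ℝ} {q r : ℕ} {y : ℝ × ℝ} {a b : ℤ × ℤ} :
    Integrable ((Box δ q y a ∩ Box δ' r y b).indicator (1 : ℝ × ℝ → ℝ)) :=
  integrable_ind (measurableSet_Box.inter measurableSet_Box)
    (ne_top_of_le_ne_top vol_Box_ne_top (measure_mono Set.inter_subset_left))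

lemma integrable_ff_sq (S : Finset ℕ) (ρ : ℕ → ℝ) (y : ℝ × ℝ) (A : ℕ → Finset (ℤ × ℤ)) :
    Integrable (fun x => ff S ρ y A x ^ 2) := by
  simp only [ff_sq]
  apply integrable_finsetSum
  intro q _
  apply integrable_finsetSum
  intro r _
  apply integrable_finsetSum
  intro a _
  apply integrable_finsetSum
  intro b _
  exact integrable_inter

lemma integral_ff_sq (S : Finset ℕ) (ρ : ℕ → ℝ) (y : ℝ × ℝ) (A : ℕ → Finset (ℤ × ℤ)) :
    ∫ x, ff S ρ y A x ^ 2 = ∑ q ∈ S, ∑ r ∈ S, VV ρ y A q r := by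
  simp only [ff_sq]
  rw [integral_finsetSum]
  · apply Finset.sum_congr rfl
    intro q _
    rw [integral_finsetSum]
    · apply Finset.sum_congr rfl
      intro r _
      unfold VV
      rw [integral_finsetSum]
      · apply Finset.sum_congr rfl
        intro a _
        rw [integral_finsetSum]
        · apply Finset.sum_congr rfl
          intro b _
          exact integral_indicator_one (measurableSet_Box.inter measurableSet_Box)
        · intro b _
          exact integrable_inter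
      · intro a _
        apply integrable_finsetSum
        intro b _
        exact integrable_inter
    · intro r _
      apply integrable_finsetSum
      intro a _
      apply integrable_finsetSum
      intro b _
      exact integrable_inter
  · intro q _
    apply integrable_finsetSum
    intro r _
    apply integrable_finsetSum
    intro a _
    apply integrable_finsetSum
    intro b _
    exact integrable_inter

open Classical in
lemma integral_cell_ff {S : Finset ℕ} {ρ : ℕ → ℝ} {y : ℝ × ℝ} {D : ℕ → ℕ} {u : ℕ → ℤ × ℤ}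
    {N i j : ℕ} (hN : 0 < N) (hi : i < N) (hj : j < N) (hS : ∀ q ∈ S, 8192 * N ^ 2 ≤ q)
    (hρ : ∀ q ∈ S, 0 < ρ q) (hρ1 : ∀ q ∈ S, ρ q ≤ 1 / 2)
    (hcop : ∀ q ∈ S, ∀ p : ℕ, p.Prime → (p : ℤ) ∣ D q → (p : ℤ) ∣ (u q).1 → (p : ℤ) ∣ (u q).2 → False) :
    (∑ q ∈ S, ρ q ^ 2 / 2) / (N : ℝ) ^ 2 ≤
      ∫ x in cell N i j, ff S ρ y (fun q => fam y (D q) (u q) q) x := by
  have hN' : (0 : ℝ) < N := by exact_mod_cast hN
  unfold ff
  rw [integral_finsetSum]
  · rw [Finset.sum_div]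
    apply Finset.sum_le_sum
    intro q hq
    rw [integral_finsetSum]
    · have hq0 : 0 < q := by
        have h1 := hS q hq
        have h2 : 0 < N ^ 2 := by positivity
        omega
      have hq' : (0 : ℝ) < q := by exact_mod_cast hq0
      have h1 : ∀ a ∈ fam y (D q) (u q) q, (if Box (ρ q) q y a ⊆ cell N i j then 4 * (ρ q / q) ^ 2 else 0) ≤
          ∫ x in cell N i j, (Box (ρ q) q y a).indicator (1 : ℝ × ℝ → ℝ) x := by
        intro a _
        rw [integral_indicator_one measurableSet_Box, measureReal_restrict_apply measurableSet_Box]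
        split_ifs with h
        · rw [Set.inter_eq_left.2 h, vol_Box (hρ q hq).le]
        · exact measureReal_nonneg
      refine le_trans ?_ (Finset.sum_le_sum h1)
      rw [← Finset.sum_filter, Finset.sum_const, nsmul_eq_mul]
      have h2 := count_cell (y := y) hN hi hj (hS q hq) (hρ q hq) (hρ1 q hq) (hcop q hq)
      calc ρ q ^ 2 / 2 / (N : ℝ) ^ 2 = ((q : ℝ) / N) ^ 2 / 8 * (4 * (ρ q / q) ^ 2) := by
            field_simp
            ring
        _ ≤ _ := mul_le_mul_of_nonneg_right h2 (by positivity)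
    · intro a _
      exact (integrable_ind measurableSet_Box vol_Box_ne_top).integrableOn
  · intro q _
    apply integrable_finsetSum
    intro a _
    exact (integrable_ind measurableSet_Box vol_Box_ne_top).integrableOn

/-- the criterion -/
theorem null_of_families (y : ℝ × ℝ) (G : Set (ℝ × ℝ)) (hG : MeasurableSet G)
    (hGs : G ⊆ Set.Ioo (0 : ℝ) 1 ×ˢ Set.Ioo (0 : ℝ) 1) (C c₁ : ℝ) (hc : 0 < c₁)
    (h : ∀ N : ℕ, 0 < N → ∃ (S : Finset ℕ) (ρ : ℕ → ℝ) (D : ℕ → ℕ) (u : ℕ → ℤ × ℤ),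
      (∀ q ∈ S, 8192 * N ^ 2 ≤ q) ∧ (∀ q ∈ S, 0 < ρ q) ∧ (∀ q ∈ S, ρ q ≤ 1 / 2) ∧
      (∀ q ∈ S, ∀ p : ℕ, p.Prime → (p : ℤ) ∣ D q → (p : ℤ) ∣ (u q).1 → (p : ℤ) ∣ (u q).2 → False) ∧
      (∀ q ∈ S, ∀ a : ℤ × ℤ, Disjoint G (Box (ρ q) q y a)) ∧
      (c₁ ≤ ∑ q ∈ S, ρ q ^ 2 / 2) ∧
      ∑ q ∈ S, ∑ r ∈ S, VV ρ y (fun q => fam y (D q) (u q) q) q r ≤ C) :
    volume G = 0 := by
  apply dual G hG hGs C c₁ hc
  intro N hN
  obtain ⟨S, ρ, D, u, h1, h2, h3, h4, h5, h6, h7⟩ := h N hN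
  have hN' : (0 : ℝ) < N := by exact_mod_cast hN
  refine ⟨ff S ρ y (fun q => fam y (D q) (u q) q), integrable_ff _ _ _ _, integrable_ff_sq _ _ _ _,
    ff_nonneg _ _ _ _, ?_, ?_, ?_⟩
  · intro x hx
    unfold ff
    apply Finset.sum_eq_zero
    intro q hq
    apply Finset.sum_eq_zero
    intro a _
    exact Set.indicator_of_notMem (Set.disjoint_left.1 (h5 q hq a) hx) _
  · rw [integral_ff_sq]
    exact h7
  · intro i j hi hj
    refine le_trans ?_ (integral_cell_ff hN hi hj h1 h2 h3 h4)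
    exact div_le_div_of_nonneg_right h6 (by positivity)

end Pool.Agent.N761.K2
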