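import Mathlib
import Pool.Agent.N761.K2.Moment

/-!
# The divergence theorem
-/

set_option autoImplicit false

namespace Pool.Agent.N761.K2

open MeasureTheory Finset

/-- the set of the points of the open square without solution beyond `Q` -/
def GQ (ψ : ℕ → ℝ) (y : ℝ × ℝ) (Q : ℕ) : Set (ℝ × ℝ) :=
  (Set.Ioo (0 : ℝ) 1 ×ˢ Set.Ioo (0 : ℝ) 1) \
    ⋃ q : ℕ, ⋃ _ : Q ≤ q ∧ 0 < q, ⋃ a : ℤ × ℤ, Box (ψ q) q y a

lemma measurableSet_GQ (ψ : ℕ → ℝ) (y : ℝ × ℝ) (Q : ℕ) : MeasurableSet (GQ ψ y Q) := by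
  unfold GQ
  apply (measurableSet_Ioo.prod measurableSet_Ioo).diff
  apply IsOpen.measurableSet
  exact isOpen_iUnion (fun _ => isOpen_iUnion (fun _ => isOpen_iUnion (fun _ => isOpen_Box)))

lemma GQ_sub (ψ : ℕ → ℝ) (y : ℝ × ℝ) (Q : ℕ) :
    GQ ψ y Q ⊆ Set.Ioo (0 : ℝ) 1 ×ˢ Set.Ioo (0 : ℝ) 1 := Set.sdiff_subset

lemma GQ_disjoint {ψ : ℕ → ℝ} {y : ℝ × ℝ} {Q q : ℕ} (hQ : Q ≤ q) (hq : 0 < q) {δ : ℝ} (hδ : δ ≤ ψ q)
    (a : ℤ × ℤ) : Disjoint (GQ ψ y Q) (Box δ q y a) := by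
  rw [Set.disjoint_left]
  intro x hx hx'
  apply hx.2
  simp only [Set.mem_iUnion]
  refine ⟨q, ⟨hQ, hq⟩, a, ?_⟩
  rw [mem_Box hq] at hx' ⊢
  exact lt_of_lt_of_le hx' hδ

/-- large values -/
lemma caseA (ψ : ℕ → ℝ) (y : ℝ × ℝ) (ε : ℝ) (hε : 0 < ε) (hε1 : ε ≤ 1 / 4)
    (h : ∀ T : ℕ, ∃ q, T ≤ q ∧ ε ≤ ψ q) (Q : ℕ) : volume (GQ ψ y Q) = 0 := by
  apply null_of_families y _ (measurableSet_GQ ψ y Q) (GQ_sub ψ y Q) (36 * ε ^ 2) (ε ^ 2 / 2)
    (by positivity)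
  intro N hN
  obtain ⟨q, hq, hψ⟩ := h (max (8192 * N ^ 2) Q)
  have hq1 : 8192 * N ^ 2 ≤ q := (le_max_left _ _).trans hq
  have hq2 : Q ≤ q := (le_max_right _ _).trans hq
  have hq0 : 0 < q := by
    have : 0 < N ^ 2 := by positivity
    omega
  refine ⟨{q}, fun _ => ε, fun _ => 1, fun _ => (0, 0), ?_, ?_, ?_, ?_, ?_, ?_, ?_⟩
  · intro r hr
    rw [mem_singleton] at hr
    rw [hr]; exact hq1
  · intro _ _; exact hε
  · intro _ _; linarith
  · intro _ _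
    exact (twist_trivial y).cop
  · intro r hr a
    rw [mem_singleton] at hr
    rw [hr]
    exact GQ_disjoint hq2 hq0 hψ a
  · rw [sum_singleton]
  · rw [sum_singleton, sum_singleton]
    exact VV_diag (ρ := fun _ => ε) hq0 hε.le (by linarith) (fam_subset _ _ _ _)

lemma exists_blk {x : ℝ} (hx0 : 0 < x) (hx : x ≤ (1 / 2 : ℝ) ^ (4 ^ (10 + 4))) :
    ∃ i : ℕ, 10 ≤ i ∧ (1 / 2 : ℝ) ^ (4 ^ (i + 5)) < x ∧ x ≤ (1 / 2 : ℝ) ^ (4 ^ (i + 4)) := by
  classical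
  have hex : ∃ i : ℕ, (1 / 2 : ℝ) ^ (4 ^ (i + 5)) < x := by
    obtain ⟨n, hn⟩ := exists_pow_lt_of_lt_one hx0 (by norm_num : (1 / 2 : ℝ) < 1)
    refine ⟨n, lt_of_le_of_lt ?_ hn⟩
    apply pow_le_pow_of_le_one (by norm_num) (by norm_num)
    have h1 : n < 4 ^ n := Nat.lt_pow_self (by norm_num)
    have h2 : 4 ^ n ≤ 4 ^ (n + 5) := Nat.pow_le_pow_right (by norm_num) (by omega)
    omega
  set i := Nat.find hex with hi
  have h1 : (1 / 2 : ℝ) ^ (4 ^ (i + 5)) < x := Nat.find_spec hex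
  have h2 : 10 ≤ i := by
    by_contra hcon
    push Not at hcon
    have h3 : (1 / 2 : ℝ) ^ (4 ^ (10 + 4)) ≤ (1 / 2 : ℝ) ^ (4 ^ (i + 5)) := by
      apply pow_le_pow_of_le_one (by norm_num) (by norm_num)
      exact Nat.pow_le_pow_right (by norm_num) (by omega)
    exact absurd (lt_of_lt_of_le h1 (hx.trans h3)) (lt_irrefl _)
  refine ⟨i, h2, h1, ?_⟩
  have h3 : ¬ (1 / 2 : ℝ) ^ (4 ^ ((i - 1) + 5)) < x := Nat.find_min hex (by omega)
  rw [not_lt, show (i - 1) + 5 = i + 4 by omega] at h3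
  exact h3

lemma exists_twist_blk (y : ℝ × ℝ) (i : ℕ) : ∃ (D : ℕ) (u : ℤ × ℤ),
    Twist (2 ^ (4 ^ (i + 3) + 4 ^ (i + 2))) ((1 / 2 : ℝ) ^ (4 ^ (i + 4))) y D u := by
  apply exists_twist
  push_cast
  rw [one_div, inv_pow, ← pow_mul, ← div_eq_mul_inv, div_le_iff₀ (by positivity), one_mul,
    show (4 : ℝ) = 2 ^ 2 by norm_num, ← pow_add]
  apply pow_le_pow_right₀ (by norm_num)
  have h1 : 1 ≤ 4 ^ (i + 2) := Nat.one_le_pow _ _ (by norm_num)
  have h2 : 4 ^ (i + 3) = 4 * 4 ^ (i + 2) := by ring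
  have h3 : 4 ^ (i + 4) = 16 * 4 ^ (i + 2) := by ring
  rw [h2, h3]
  omega

/-- a finite set of blocks of the same parity with mass in `[1, 2]` -/
lemma exists_S (ψ : ℕ → ℝ) (hψ : ∀ q, 0 ≤ ψ q) (hdiv : ¬ Summable (fun q : ℕ => ψ q ^ 2))
    (blk : ℕ → ℕ) (T : ℕ) (hT : ∀ q, T ≤ q → ψ q ≤ 1) :
    ∃ S : Finset ℕ, (∀ q ∈ S, T ≤ q ∧ 0 < ψ q) ∧ (∀ q ∈ S, ∀ r ∈ S, blk q % 2 = blk r % 2) ∧
      1 ≤ ∑ q ∈ S, ψ q ^ 2 ∧ ∑ q ∈ S, ψ q ^ 2 ≤ 2 := by
  classical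
  set φ : ℕ → ℕ → ℝ := fun e q => if T ≤ q ∧ 0 < ψ q ∧ blk q % 2 = e then ψ q ^ 2 else 0 with hφ
  have hφ0 : ∀ e q, 0 ≤ φ e q := by
    intro e q
    simp only [hφ]
    split_ifs
    · exact sq_nonneg _
    · exact le_rfl
  have hex : ∃ e, ¬ Summable (φ e) := by
    by_contra hcon
    push Not at hcon
    apply hdiv
    rw [← summable_nat_add_iff T]
    have h1 := (summable_nat_add_iff T).2 ((hcon 0).add (hcon 1))
    refine h1.congr ?_
    intro q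
    simp only [hφ]
    rcases Nat.mod_two_eq_zero_or_one (blk (q + T)) with h | h
    · rw [h]
      rcases (hψ (q + T)).lt_or_eq with h2 | h2
      · simp [h2]
      · simp [← h2]
    · rw [h]
      rcases (hψ (q + T)).lt_or_eq with h2 | h2
      · simp [h2]
      · simp [← h2]
  obtain ⟨e, he⟩ := hex
  have h1 := (not_summable_iff_tendsto_nat_atTop_of_nonneg (hφ0 e)).1 he
  have h2 : ∃ n, 1 ≤ ∑ i ∈ range n, φ e i := by
    obtain ⟨n, hn⟩ := (Filter.tendsto_atTop.1 h1 1).exists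
    exact ⟨n, hn⟩
  set n := Nat.find h2 with hn
  have h3 : 1 ≤ ∑ i ∈ range n, φ e i := Nat.find_spec h2
  have hn0 : n ≠ 0 := by
    intro h
    rw [h] at h3
    simp at h3
    linarith
  obtain ⟨k, hk⟩ := Nat.exists_eq_succ_of_ne_zero hn0
  have h4 : ¬ 1 ≤ ∑ i ∈ range k, φ e i := Nat.find_min h2 (by omega)
  refine ⟨(range n).filter (fun q => T ≤ q ∧ 0 < ψ q ∧ blk q % 2 = e), ?_, ?_, ?_, ?_⟩
  · intro q hq
    rw [mem_filter] at hq
    exact ⟨hq.2.1, hq.2.2.1⟩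
  · intro q hq r hr
    rw [mem_filter] at hq hr
    rw [hq.2.2.2, hr.2.2.2]
  · rw [Finset.sum_filter]
    exact h3
  · rw [Finset.sum_filter]
    change ∑ i ∈ range n, φ e i ≤ 2
    rw [hk, Finset.sum_range_succ]
    have h5 : φ e k ≤ 1 := by
      simp only [hφ]
      split_ifs with h
      · have := hT k h.1
        have := hψ k
        nlinarith
      · norm_num
    linarith

/-- small values -/
lemma caseB (ψ : ℕ → ℝ) (hψ : ∀ q, 0 ≤ ψ q) (hdiv : ¬ Summable (fun q : ℕ => ψ q ^ 2)) (y : ℝ × ℝ)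
    (h : ∃ T : ℕ, ∀ q, T ≤ q → ψ q ≤ (1 / 2 : ℝ) ^ (4 ^ (10 + 4))) (Q : ℕ) :
    volume (GQ ψ y Q) = 0 := by
  classical
  obtain ⟨T₀, hT₀⟩ := h
  have hsm : (1 / 2 : ℝ) ^ (4 ^ (10 + 4)) ≤ 1 / 4 := by
    calc (1 / 2 : ℝ) ^ (4 ^ (10 + 4)) ≤ (1 / 2 : ℝ) ^ 2 := by
          apply pow_le_pow_of_le_one (by norm_num) (by norm_num)
          calc 2 ≤ 4 ^ 1 := by norm_num
            _ ≤ 4 ^ (10 + 4) := Nat.pow_le_pow_right (by norm_num) (by norm_num)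
      _ = 1 / 4 := by norm_num
  have hb : ∀ q, ∃ i : ℕ, 10 ≤ i ∧ (0 < ψ q → T₀ ≤ q →
      (1 / 2 : ℝ) ^ (4 ^ (i + 5)) < ψ q ∧ ψ q ≤ (1 / 2 : ℝ) ^ (4 ^ (i + 4))) := by
    intro q
    by_cases h1 : 0 < ψ q ∧ T₀ ≤ q
    · obtain ⟨i, h2, h3, h4⟩ := exists_blk h1.1 (hT₀ q h1.2)
      exact ⟨i, h2, fun _ _ => ⟨h3, h4⟩⟩
    · exact ⟨10, le_rfl, fun h2 h3 => absurd ⟨h2, h3⟩ h1⟩
  choose blk hblk10 hblk using hb
  choose Dn un hDu using exists_twist_blk y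
  apply null_of_families y _ (measurableSet_GQ ψ y Q) (GQ_sub ψ y Q) 1105 (1 / 2) (by norm_num)
  intro N hN
  set T := max (8192 * N ^ 2) (max Q T₀) with hT
  obtain ⟨S, hS1, hS2, hS3, hS4⟩ := exists_S ψ hψ hdiv blk T (by
    intro q hq
    have h1 : T₀ ≤ q := (le_max_right _ _).trans ((le_max_right _ _).trans hq)
    exact ((hT₀ q h1).trans hsm).trans (by norm_num))
  have hqN : ∀ q ∈ S, 8192 * N ^ 2 ≤ q := fun q hq => (le_max_left _ _).trans (hS1 q hq).1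
  have hqQ : ∀ q ∈ S, Q ≤ q := fun q hq =>
    (le_max_left _ _).trans ((le_max_right _ _).trans (hS1 q hq).1)
  have hqT : ∀ q ∈ S, T₀ ≤ q := fun q hq =>
    (le_max_right _ _).trans ((le_max_right _ _).trans (hS1 q hq).1)
  have hq0 : ∀ q ∈ S, 0 < q := by
    intro q hq
    have h1 := hqN q hq
    have : 0 < N ^ 2 := by positivity
    omega
  have hψ4 : ∀ q ∈ S, ψ q ≤ 1 / 4 := fun q hq => (hT₀ q (hqT q hq)).trans hsm
  have HB : Blocks ψ S blk := by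
    refine ⟨hq0, ?_, ?_, ?_, ?_, hS4⟩
    · intro q hq
      exact (hblk q (hS1 q hq).2 (hqT q hq)).1
    · intro q hq
      exact (hblk q (hS1 q hq).2 (hqT q hq)).2
    · intro q _
      exact hblk10 q
    · intro q hq r hr hlt
      have := hS2 q hq r hr
      omega
  refine ⟨S, ψ, fun q => Dn (blk q), fun q => un (blk q), hqN, fun q hq => (hS1 q hq).2, ?_, ?_, ?_,
    ?_, ?_⟩
  · intro q hq
    linarith [hψ4 q hq]
  · intro q _
    exact (hDu (blk q)).cop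
  · intro q hq a
    exact GQ_disjoint (hqQ q hq) (hq0 q hq) le_rfl a
  · rw [← Finset.sum_div]
    linarith
  · set A : ℕ → Finset (ℤ × ℤ) := fun q => fam y (Dn (blk q)) (un (blk q)) q with hA
    have hAsub : ∀ q, A q ⊆ full q y := fun q => fam_subset _ _ _ _
    have hpt : ∀ q ∈ S, ∀ r ∈ S, VV ψ y A q r ≤ (if r = q then 36 * ψ q ^ 2 else 0) +
        256 * (ψ q ^ 2 * ψ r ^ 2) + (if BadP ψ blk q r then 36 * wt ψ q r else 0) := by
      intro q hq r hr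
      have hψq := (hS1 q hq).2
      have hψr := (hS1 r hr).2
      have n1 : 0 ≤ 256 * (ψ q ^ 2 * ψ r ^ 2) := by positivity
      have n2 : 0 ≤ (if BadP ψ blk q r then 36 * wt ψ q r else 0) := by
        split_ifs
        · have := wt_nonneg (ψ := ψ) q r
          linarith
        · exact le_rfl
      have n3 : 0 ≤ (if r = q then 36 * ψ q ^ 2 else 0) := by
        split_ifs
        · positivity
        · exact le_rfl
      by_cases hqr : r = q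
      · rw [hqr] at n1 n2 ⊢
        rw [if_pos rfl]
        have := VV_diag (A := A) (y := y) (hq0 q hq) hψq.le (by linarith [hψ4 q hq]) (hAsub q)
        linarith
      · by_cases hW : 1 / 2 ≤ max (qa r q * ψ q) (qa q r * ψ r)
        · have := VV_big (A := A) (y := y) (hq0 q hq) (hq0 r hr) hψq.le hψr.le (hAsub q) (hAsub r) hW
          linarith
        · rw [not_le, max_lt_iff] at hW
          by_cases hk : blk q = blk r ∧ max (qa q r) (qa r q) ≤ 2 ^ (4 ^ (blk q + 3) + 4 ^ (blk q + 2))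
          · have hz : VV ψ y A q r = 0 := by
              unfold VV
              apply Finset.sum_eq_zero
              intro a ha
              apply Finset.sum_eq_zero
              intro b hb
              have hb' : b ∈ fam y (Dn (blk q)) (un (blk q)) r := by
                rw [hk.1]
                exact hb
              have hψr' := HB.hi r hr
              rw [← hk.1] at hψr'
              rw [killed (hDu (blk q)) (hq0 q hq) (hq0 r hr) (fun h => hqr h.symm) hk.2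
                (HB.hi q hq) hψr' (by positivity) ha hb']
              simp
            rw [hz]
            linarith
          · have hbad : BadP ψ blk q r := by
              refine ⟨fun h => hqr h.symm, hW.1, hW.2, ?_⟩
              intro hbl
              by_contra hcon
              rw [not_lt] at hcon
              exact hk ⟨hbl, hcon⟩
            rw [if_pos hbad]
            have := VV_small (A := A) (y := y) (hq0 q hq) (hq0 r hr) hψq.le hψr.le (hAsub q)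
              (hAsub r) hW.1 hW.2
            linarith
    have hsum := Finset.sum_le_sum (fun q hq => Finset.sum_le_sum (hpt q hq))
    refine hsum.trans ?_
    simp only [Finset.sum_add_distrib]
    have e1 : ∑ q ∈ S, ∑ r ∈ S, (if r = q then 36 * ψ q ^ 2 else 0) = 36 * ∑ q ∈ S, ψ q ^ 2 := by
      rw [Finset.mul_sum]
      apply Finset.sum_congr rfl
      intro q hq
      rw [Finset.sum_ite_eq' S q, if_pos hq]
    have e2 : ∑ q ∈ S, ∑ r ∈ S, 256 * (ψ q ^ 2 * ψ r ^ 2) = 256 * (∑ q ∈ S, ψ q ^ 2) ^ 2 := by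
      rw [sq, Finset.sum_mul_sum, Finset.mul_sum]
      apply Finset.sum_congr rfl
      intro q _
      rw [Finset.mul_sum]
    have e3 : ∑ q ∈ S, ∑ r ∈ S, (if BadP ψ blk q r then 36 * wt ψ q r else 0) =
        36 * ∑ x ∈ (S ×ˢ S).filter (fun x => BadP ψ blk x.1 x.2), wt ψ x.1 x.2 := by
      rw [Finset.mul_sum, Finset.sum_filter, Finset.sum_product]
    rw [e1, e2, e3]
    have e4 := bad_sum HB
    have e5 : (∑ q ∈ S, ψ q ^ 2) ^ 2 ≤ 4 := by nlinarith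
    linarith

theorem null_GQ (ψ : ℕ → ℝ) (hψ : ∀ q, 0 ≤ ψ q) (hdiv : ¬ Summable (fun q : ℕ => ψ q ^ 2))
    (y : ℝ × ℝ) (Q : ℕ) : volume (GQ ψ y Q) = 0 := by
  by_cases h : ∃ T : ℕ, ∀ q, T ≤ q → ψ q ≤ (1 / 2 : ℝ) ^ (4 ^ (10 + 4))
  · exact caseB ψ hψ hdiv y h Q
  · push Not at h
    have hsm : (1 / 2 : ℝ) ^ (4 ^ (10 + 4)) ≤ 1 / 4 := by
      calc (1 / 2 : ℝ) ^ (4 ^ (10 + 4)) ≤ (1 / 2 : ℝ) ^ 2 := by
            apply pow_le_pow_of_le_one (by norm_num) (by norm_num)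
            calc 2 ≤ 4 ^ 1 := by norm_num
              _ ≤ 4 ^ (10 + 4) := Nat.pow_le_pow_right (by norm_num) (by norm_num)
        _ = 1 / 4 := by norm_num
    exact caseA ψ y ((1 / 2 : ℝ) ^ (4 ^ (10 + 4))) (pow_pos (by norm_num) _) hsm
      (fun T => by
        obtain ⟨q, h1, h2⟩ := h T
        exact ⟨q, h1, h2.le⟩) Q

theorem main (y : ℝ × ℝ) (ψ : ℕ → ℝ) (hψ : ∀ q, 0 ≤ ψ q)
    (hdiv : ¬ Summable (fun q : ℕ => ψ q ^ 2)) :
    ∀ᵐ x ∂(volume.restrict (Set.Icc (0 : ℝ × ℝ) 1)),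
      {q : ℕ | 0 < q ∧ ∃ a : ℤ × ℤ,
        ‖(q : ℝ) • x - ((a.1 : ℝ), (a.2 : ℝ)) - y‖ < ψ q}.Infinite := by
  have h1 : Set.Icc (0 : ℝ × ℝ) 1 = Set.Icc (0 : ℝ) 1 ×ˢ Set.Icc (0 : ℝ) 1 := Set.Icc_prod_eq 0 1
  have h2 : (Set.Icc (0 : ℝ) 1 ×ˢ Set.Icc (0 : ℝ) 1 : Set (ℝ × ℝ)) =ᵐ[volume]
      (Set.Ioo (0 : ℝ) 1 ×ˢ Set.Ioo (0 : ℝ) 1 : Set (ℝ × ℝ)) := by
    rw [Measure.volume_eq_prod]
    exact Measure.set_prod_ae_eq Ioo_ae_eq_Icc.symm Ioo_ae_eq_Icc.symm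
  rw [h1, Measure.restrict_congr_set h2, ae_restrict_iff' (measurableSet_Ioo.prod measurableSet_Ioo)]
  have h3 : ∀ᵐ x ∂(volume : Measure (ℝ × ℝ)), ∀ Q : ℕ, x ∉ GQ ψ y Q := by
    rw [ae_all_iff]
    intro Q
    rw [ae_iff]
    simp only [not_not]
    exact null_GQ ψ hψ hdiv y Q
  filter_upwards [h3] with x hx hx1
  rw [Set.infinite_iff_exists_gt]
  intro Q
  have h4 := hx (Q + 1)
  unfold GQ at h4
  rw [Set.mem_sdiff, not_and, not_not] at h4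
  have h5 := h4 hx1
  simp only [Set.mem_iUnion] at h5
  obtain ⟨q, ⟨h6, h7⟩, a, h8⟩ := h5
  rw [mem_Box h7] at h8
  exact ⟨q, ⟨h7, a, h8⟩, by omega⟩

end Pool.Agent.N761.K2
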